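import Pool.Agent.H51.TA.Finite

/-!
# The finite theorem: agreement
-/

set_option autoImplicit false

namespace Pool.Agent.H51.TA

open Finset Pool.Agent.H17.QM

section

variable {X Y Z : Type*} [Fintype X] [DecidableEq X] [Fintype Y] [DecidableEq Y] [Fintype Z]
  [DecidableEq Z] {o : Z} {𝒟 : X → Finset X → (X → Y → Z) → Prop}

open Classical in
/-- The number of blocks with a witness. -/
noncomputable def mem (o : Z) (β : X → Y → Z) : ℕ := (univ.filter fun x => β x ∉ wf o).card

open Classical in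
/-- The number of right answers to the question whether a block has no witness. -/
noncomputable def agr (o : Z) (𝒟 : X → Finset X → (X → Y → Z) → Prop) (β : X → Y → Z) : ℕ :=
  (univ.filter fun x => Acc 𝒟 x β ↔ β x ∈ wf o).card

lemma agr_eq (β : X → Y → Z) : agr o 𝒟 β + fail o 𝒟 β = good o 𝒟 β + mem o β := by
  classical
  have h1 : agr o 𝒟 β = good o 𝒟 β +
      (univ.filter fun x => ¬ Acc 𝒟 x β ∧ β x ∉ wf o).card := by
    rw [agr, good, ← Finset.card_union_of_disjoint]
    · congr 1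
      ext x
      simp only [Finset.mem_filter, Finset.mem_univ, true_and, Finset.mem_union]
      tauto
    · rw [Finset.disjoint_left]
      intro x hx hx'
      simp only [Finset.mem_filter, Finset.mem_univ, true_and] at hx hx'
      exact hx'.1 hx.1
  have h2 : mem o β = fail o 𝒟 β +
      (univ.filter fun x => ¬ Acc 𝒟 x β ∧ β x ∉ wf o).card := by
    rw [mem, fail, ← Finset.card_union_of_disjoint]
    · congr 1
      ext x
      simp only [Finset.mem_filter, Finset.mem_univ, true_and, Finset.mem_union]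
      tauto
    · rw [Finset.disjoint_left]
      intro x hx hx'
      simp only [Finset.mem_filter, Finset.mem_univ, true_and] at hx hx'
      exact hx'.1 hx.1
  omega

omit [Fintype X] [DecidableEq X] in
lemma card_wf (hK : 2 ≤ Fintype.card Z) :
    ((wf (Y := Y) o).card : ℝ) * (1 + wq Z) ^ Fintype.card Y = Fintype.card (Y → Z) := by
  have := sum_eq_plant (Y := Y) o hK (fun _ => (1 : ℝ))
  simp only [mul_one, sum_wq] at this
  rw [Finset.sum_const, nsmul_eq_mul, Finset.sum_const, nsmul_eq_mul, Finset.card_univ,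
    mul_one] at this
  exact this.symm

/-- Almost all tables have about as many blocks with a witness as without. -/
theorem mem_main (hK : 2 ≤ Fintype.card Z) {η : ℝ} (h0 : 0 < η) (h1 : η ≤ 1)
    (hbias : |1 - 2 / (1 + wq Z) ^ Fintype.card Y| ≤ η / 2)
    (S : Finset (X → Y → Z)) (hS : ∀ β ∈ S, (1 / 2 + η) * Fintype.card X ≤ (mem o β : ℝ)) :
    (S.card : ℝ) ≤ Real.exp (-(η ^ 2 * Fintype.card X / 4)) *
      (Fintype.card (Y → Z) : ℝ) ^ Fintype.card X := by
  classical
  have hne : Nonempty Z := Fintype.card_pos_iff.1 (by omega)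
  set N : ℝ := (Fintype.card X : ℝ) with hN
  have hN0 : 0 ≤ N := Nat.cast_nonneg _
  set u : ℝ := η / 2 with hu
  have hu0 : 0 < u := by rw [hu]; positivity
  have hu1 : u ≤ 1 / 2 := by rw [hu]; linarith
  set c : ℝ := (Fintype.card (Y → Z) : ℝ) with hc
  have hc0 : 0 < c := by rw [hc]; exact_mod_cast Fintype.card_pos
  have hw := wq_pos (Z := Z) hK
  set q : ℝ := (1 + wq Z) ^ Fintype.card Y with hq
  have hq0 : 0 < q := by positivity
  have hwf : ((wf (Y := Y) o).card : ℝ) = c / q := by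
    rw [eq_div_iff hq0.ne', hc, ← card_wf (o := o) hK]
  obtain ⟨h, hh⟩ : ∃ h : (Y → Z) → ℝ, h = fun α => if α ∈ wf o then 1 - u else 1 + u :=
    ⟨_, rfl⟩
  have h2 : ∑ α, h α = c * (1 + u * (1 - 2 / q)) := by
    have h3 : ∀ α : Y → Z, h α = (1 + u) - 2 * u * (if α ∈ wf o then 1 else 0) := by
      intro α
      rw [hh]
      dsimp only
      split_ifs <;> ring
    simp only [h3]
    rw [Finset.sum_sub_distrib, Finset.sum_const, Finset.card_univ, nsmul_eq_mul,
      ← Finset.mul_sum, Finset.sum_boole]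
    have h4 : (univ.filter fun α : Y → Z => α ∈ wf o) = wf o := by ext α; simp
    rw [h4, hwf]
    ring
  have h3 : ∑ β : X → Y → Z, ∏ x, h (β x) = (c * (1 + u * (1 - 2 / q))) ^ Fintype.card X := by
    rw [← h2, ← Finset.card_univ, ← Finset.prod_const, Finset.prod_univ_sum,
      Fintype.piFinset_univ]
  have hpos : ∀ α, 0 < h α := by
    intro α
    simp only [hh]
    split_ifs <;> linarith
  have h4 : 1 + u * (1 - 2 / q) ≤ Real.exp (η ^ 2 / 4) := by
    have h5 : u * (1 - 2 / q) ≤ u * (η / 2) :=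
      mul_le_mul_of_nonneg_left ((le_abs_self _).trans hbias) hu0.le
    have h6 := Real.add_one_le_exp (η ^ 2 / 4)
    have h7 : u * (η / 2) = η ^ 2 / 4 := by rw [hu]; ring
    linarith
  have h5 : 0 ≤ 1 + u * (1 - 2 / q) := by
    have h6 : u * (-(η / 2)) ≤ u * (1 - 2 / q) :=
      mul_le_mul_of_nonneg_left (neg_le_of_abs_le hbias) hu0.le
    nlinarith
  have h6 : ∀ β ∈ S, Real.exp (η ^ 2 * N / 2) ≤ ∏ x, h (β x) := by
    intro β hβ
    have h7 : ∏ x, h (β x) = Real.exp (Real.log (1 + u) * mem o β +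
        Real.log (1 - u) * (N - mem o β)) := by
      have h8 : ∀ x, h (β x) = Real.exp (Real.log (1 + u) * (if β x ∉ wf o then 1 else 0) +
          Real.log (1 - u) * (1 - if β x ∉ wf o then 1 else 0)) := by
        intro x
        simp only [hh]
        by_cases h9 : β x ∈ wf o
        · simp [h9, Real.exp_log (show 0 < 1 - u by linarith)]
        · simp [h9, Real.exp_log (show 0 < 1 + u by linarith)]
      rw [Finset.prod_congr rfl fun x _ => h8 x, ← Real.exp_sum]
      congr 1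
      rw [Finset.sum_add_distrib, ← Finset.mul_sum, ← Finset.mul_sum, Finset.sum_sub_distrib,
        Finset.sum_boole, Finset.sum_const, Finset.card_univ, nsmul_eq_mul, mul_one]
      rfl
    rw [h7]
    refine Real.exp_le_exp.2 ?_
    have hl1 : u - u ^ 2 ≤ Real.log (1 + u) := by
      have h8 := Real.one_sub_inv_le_log_of_pos (show 0 < 1 + u by linarith)
      refine le_trans ?_ h8
      rw [← sub_nonneg]
      have : 1 - (1 + u)⁻¹ - (u - u ^ 2) = u ^ 3 / (1 + u) := by field_simp; ring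
      rw [this]
      positivity
    have hl2 : -(u + 2 * u ^ 2) ≤ Real.log (1 - u) := by
      have h9 : 0 < 1 - u := by linarith
      have h8 := Real.one_sub_inv_le_log_of_pos h9
      refine le_trans ?_ h8
      rw [← sub_nonneg]
      have : 1 - (1 - u)⁻¹ - -(u + 2 * u ^ 2) = u ^ 2 * (1 - 2 * u) / (1 - u) := by
        have h10 := h9.ne'
        field_simp
        ring
      rw [this]
      have : 0 ≤ 1 - 2 * u := by linarith
      positivity
    have hm1 := hS β hβ
    have hm2 : (mem o β : ℝ) ≤ N := by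
      rw [mem, hN]
      exact_mod_cast Finset.card_le_univ _
    set M : ℝ := (mem o β : ℝ) with hM
    have hM0 : 0 ≤ M := Nat.cast_nonneg _
    have h8 : (u - u ^ 2) * M ≤ Real.log (1 + u) * M := mul_le_mul_of_nonneg_right hl1 hM0
    have h9 : -(u + 2 * u ^ 2) * (N - M) ≤ Real.log (1 - u) * (N - M) :=
      mul_le_mul_of_nonneg_right hl2 (by linarith)
    have h10 : η ^ 2 * N / 2 ≤ (u - u ^ 2) * M + -(u + 2 * u ^ 2) * (N - M) := by
      have e1 : (u - u ^ 2) * M + -(u + 2 * u ^ 2) * (N - M) =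
          (2 * u + u ^ 2) * M - (u + 2 * u ^ 2) * N := by ring
      rw [e1]
      have h11 : (2 * u + u ^ 2) * ((1 / 2 + η) * N) ≤ (2 * u + u ^ 2) * M :=
        mul_le_mul_of_nonneg_left hm1 (by positivity)
      have h12 : η ^ 2 * N / 2 ≤ (2 * u + u ^ 2) * ((1 / 2 + η) * N) - (u + 2 * u ^ 2) * N := by
        have e2 : (2 * u + u ^ 2) * ((1 / 2 + η) * N) - (u + 2 * u ^ 2) * N -
            η ^ 2 * N / 2 = η ^ 2 * N * (1 / 8 + η / 4) := by rw [hu]; ring
        have : 0 ≤ η ^ 2 * N * (1 / 8 + η / 4) := by positivity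
        linarith
      linarith
    linarith
  have e3 : Real.exp (η ^ 2 / 4) ^ Fintype.card X = Real.exp (η ^ 2 * N / 4) := by
    rw [← Real.exp_nat_mul, hN]
    ring_nf
  have e4 : Real.exp (-(η ^ 2 * N / 2)) * Real.exp (η ^ 2 * N / 4) =
      Real.exp (-(η ^ 2 * N / 4)) := by
    rw [← Real.exp_add]
    ring_nf
  have h7 : (S.card : ℝ) * Real.exp (η ^ 2 * N / 2) ≤
      c ^ Fintype.card X * Real.exp (η ^ 2 * N / 4) := by
    calc (S.card : ℝ) * Real.exp (η ^ 2 * N / 2) = ∑ _β ∈ S, Real.exp (η ^ 2 * N / 2) := by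
          rw [Finset.sum_const, nsmul_eq_mul]
      _ ≤ ∑ β ∈ S, ∏ x, h (β x) := Finset.sum_le_sum h6
      _ ≤ ∑ β : X → Y → Z, ∏ x, h (β x) :=
          Finset.sum_le_sum_of_subset_of_nonneg (Finset.subset_univ S) fun β _ _ =>
            Finset.prod_nonneg fun x _ => (hpos (β x)).le
      _ = c ^ Fintype.card X * (1 + u * (1 - 2 / q)) ^ Fintype.card X := by rw [h3, mul_pow]
      _ ≤ c ^ Fintype.card X * Real.exp (η ^ 2 / 4) ^ Fintype.card X :=
          mul_le_mul_of_nonneg_left (pow_le_pow_left₀ h5 h4 _) (by positivity)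
      _ = _ := by rw [e3]
  have e5 : Real.exp (-(η ^ 2 * N / 2)) * Real.exp (η ^ 2 * N / 2) = 1 := by
    rw [← Real.exp_add, neg_add_cancel, Real.exp_zero]
  calc (S.card : ℝ) = Real.exp (-(η ^ 2 * N / 2)) * (S.card * Real.exp (η ^ 2 * N / 2)) := by
        rw [mul_left_comm, e5, mul_one]
    _ ≤ Real.exp (-(η ^ 2 * N / 2)) * (c ^ Fintype.card X * Real.exp (η ^ 2 * N / 4)) :=
        mul_le_mul_of_nonneg_left h7 (Real.exp_pos _).le
    _ = (Real.exp (-(η ^ 2 * N / 2)) * Real.exp (η ^ 2 * N / 4)) * c ^ Fintype.card X := by ring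
    _ = _ := by rw [e4]

/-- For certificates that look at few rows of few blocks, the answers are right for about one half
of the blocks, with very few exceptional tables. -/
theorem agree_main (hK : 2 ≤ Fintype.card Z) {k : ℕ}
    (hloc : ∀ x B β β', 𝒟 x B β → (∀ y ∈ B, β y = β' y) → β x = β' x → 𝒟 x B β')
    (hpl : ∀ x B β, 𝒟 x B β → β x ∈ wf o → ∃ D : Finset Y, D.card ≤ k ∧
      ∀ W : Finset Y, Disjoint W D → 𝒟 x B (Function.update β x (plant o (β x) W)))
    (hB : ∀ x B β, 𝒟 x B β → B.card ≤ k ∧ x ∉ B) {η : ℝ} (h0 : 0 < η) (h1 : η ≤ 1)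
    (hR : 1 - η / 80 ≤ (1 + wq Z) ^ Fintype.card Y / (1 + wq Z) ^ k - 1)
    (hbias : |1 - 2 / (1 + wq Z) ^ Fintype.card Y| ≤ η / 2)
    (S : Finset (X → Y → Z))
    (hS : ∀ β ∈ S, (1 / 2 + 2 * η) * Fintype.card X ≤ (agr o 𝒟 β : ℝ)) :
    (S.card : ℝ) ≤ 2 * Real.exp (-(η ^ 3 * Fintype.card X / (400 * (k + 1)))) *
      (Fintype.card (Y → Z) : ℝ) ^ Fintype.card X := by
  classical
  set N : ℝ := (Fintype.card X : ℝ) with hN
  have hN0 : 0 ≤ N := Nat.cast_nonneg _
  set c : ℝ := (Fintype.card (Y → Z) : ℝ) ^ Fintype.card X with hc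
  have hc0 : 0 ≤ c := by positivity
  set S1 := S.filter fun β => η * N ≤ (good o 𝒟 β : ℝ) - fail o 𝒟 β with hS1
  set S2 := S.filter fun β => (1 / 2 + η) * N ≤ (mem o β : ℝ) with hS2
  have h2 : S ⊆ S1 ∪ S2 := by
    intro β hβ
    rw [Finset.mem_union, hS1, hS2, Finset.mem_filter, Finset.mem_filter]
    by_contra hcon
    push Not at hcon
    obtain ⟨h3, h4⟩ := hcon
    have h5 := h3 hβ
    have h6 := h4 hβ
    have h7 := hS β hβ
    have h8 : (agr o 𝒟 β : ℝ) + fail o 𝒟 β = good o 𝒟 β + mem o β := by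
      exact_mod_cast agr_eq (o := o) (𝒟 := 𝒟) β
    nlinarith
  have h3 := finite_main (o := o) (𝒟 := 𝒟) hK hloc hpl hB h0 h1 hR S1
    fun β hβ => (Finset.mem_filter.1 hβ).2
  have h4 := mem_main (o := o) hK h0 h1 hbias S2 fun β hβ => (Finset.mem_filter.1 hβ).2
  rw [← hN, ← hc] at h3 h4
  have h5 : Real.exp (-(η ^ 2 * N / 4)) ≤ Real.exp (-(η ^ 3 * N / (400 * (k + 1)))) := by
    refine Real.exp_le_exp.2 (neg_le_neg ?_)
    have hk0 : (0 : ℝ) ≤ k := Nat.cast_nonneg _
    rw [div_le_div_iff₀ (by positivity) (by norm_num)]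
    have h6 : η ^ 3 * N ≤ η ^ 2 * N := by
      have : η ^ 3 ≤ η ^ 2 := pow_le_pow_of_le_one h0.le h1 (by norm_num)
      gcongr
    have h7 : 0 ≤ η ^ 2 * N := by positivity
    nlinarith
  have h6 : (S.card : ℝ) ≤ S1.card + S2.card := by
    exact_mod_cast (Finset.card_le_card h2).trans (Finset.card_union_le _ _)
  calc (S.card : ℝ) ≤ S1.card + S2.card := h6
    _ ≤ Real.exp (-(η ^ 3 * N / (400 * (k + 1)))) * c +
        Real.exp (-(η ^ 3 * N / (400 * (k + 1)))) * c :=
        add_le_add h3 (h4.trans (mul_le_mul_of_nonneg_right h5 hc0))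
    _ = _ := by ring

end

end Pool.Agent.H51.TA
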