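import Pool.Agent.H17.QM.Plant

/-!
# Planting witnesses: an acceptance condition that looks at few rows is not much less likely on
tables with a witness than on tables without
-/

set_option autoImplicit false

namespace Pool.Agent.H51.TA

open Finset Pool.Agent.H17.QM

section Block

variable {Y Z : Type*} [Fintype Y] [DecidableEq Y] [Fintype Z] [DecidableEq Z] (o : Z)

omit [Fintype Y] [DecidableEq Y] in
lemma sum_powerset_pow (w : ℝ) (s : Finset Y) :
    ∑ W ∈ s.powerset, w ^ W.card = (1 + w) ^ s.card := by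
  have := Finset.sum_pow_mul_eq_add_pow w 1 s
  simp only [one_pow, mul_one] at this
  rw [this, add_comm]

open Classical in
/-- If `V g` for a table `g` without witness is not destroyed by planting witnesses outside a set
of at most `k` rows, then `V` holds for many tables with witnesses. -/
theorem block_ineq (hK : 2 ≤ Fintype.card Z) (V : (Y → Z) → Prop) {k : ℕ}
    (hV : ∀ g ∈ wf o, V g → ∃ D : Finset Y, D.card ≤ k ∧
      ∀ W : Finset Y, Disjoint W D → V (plant o g W)) :
    (((wf o).filter V).card : ℝ) *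
        ((1 + wq Z) ^ Fintype.card Y / (1 + wq Z) ^ k - 1) ≤
      ((univ.filter fun g : Y → Z => V g ∧ g ∉ wf o).card : ℝ) := by
  have hw := wq_pos (Z := Z) hK
  have h1w : 1 ≤ 1 + wq Z := by linarith
  have h1 : ((univ.filter fun g : Y → Z => V g ∧ g ∉ wf o).card : ℝ) =
      ∑ g : Y → Z, if V g ∧ g ∉ wf o then (1 : ℝ) else 0 := by
    rw [Finset.sum_boole]
  rw [h1, sum_eq_plant o hK]
  have h2 : (((wf o).filter V).card : ℝ) *
        ((1 + wq Z) ^ Fintype.card Y / (1 + wq Z) ^ k - 1) =
      ∑ g ∈ (wf o).filter V, ((1 + wq Z) ^ Fintype.card Y / (1 + wq Z) ^ k - 1) := by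
    rw [Finset.sum_const, nsmul_eq_mul]
  rw [h2]
  have h3 : ∑ g ∈ (wf o).filter V, ((1 + wq Z) ^ Fintype.card Y / (1 + wq Z) ^ k - 1) ≤
      ∑ g ∈ (wf o).filter V, ∑ W : Finset Y, wq Z ^ W.card *
        (if V (plant o g W) ∧ plant o g W ∉ wf o then (1 : ℝ) else 0) := by
    refine Finset.sum_le_sum fun g hg => ?_
    obtain ⟨hg1, hg2⟩ := Finset.mem_filter.1 hg
    obtain ⟨D, hD, hpl⟩ := hV g hg1 hg2
    have h4 : ∑ W ∈ (Dᶜ).powerset.erase ∅, wq Z ^ W.card ≤
        ∑ W : Finset Y, wq Z ^ W.card *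
        (if V (plant o g W) ∧ plant o g W ∉ wf o then (1 : ℝ) else 0) := by
      calc ∑ W ∈ (Dᶜ).powerset.erase ∅, wq Z ^ W.card
          = ∑ W ∈ (Dᶜ).powerset.erase ∅, wq Z ^ W.card *
            (if V (plant o g W) ∧ plant o g W ∉ wf o then (1 : ℝ) else 0) := by
            refine Finset.sum_congr rfl fun W hW => ?_
            obtain ⟨hW1, hW2⟩ := Finset.mem_erase.1 hW
            rw [Finset.mem_powerset] at hW2
            have h5 : Disjoint W D :=
              Finset.disjoint_left.2 fun y hy hyD => (Finset.mem_compl.1 (hW2 hy)) hyD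
            rw [if_pos ⟨hpl W h5, fun h6 => hW1 ((plant_mem_wf_iff o hg1 W).1 h6)⟩, mul_one]
        _ ≤ _ := by
            refine Finset.sum_le_sum_of_subset_of_nonneg (Finset.subset_univ _) fun W _ _ => ?_
            have : (0 : ℝ) ≤ if V (plant o g W) ∧ plant o g W ∉ wf o then (1 : ℝ) else 0 := by
              split_ifs <;> norm_num
            positivity
    refine le_trans ?_ h4
    have h5 : ∑ W ∈ (Dᶜ).powerset.erase ∅, wq Z ^ W.card = (1 + wq Z) ^ (Dᶜ).card - 1 := by
      rw [← sum_powerset_pow, ← Finset.add_sum_erase _ _ (Finset.empty_mem_powerset (Dᶜ))]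
      simp
    rw [h5]
    have h6 : (1 + wq Z) ^ Fintype.card Y / (1 + wq Z) ^ k ≤ (1 + wq Z) ^ (Dᶜ).card := by
      rw [div_le_iff₀ (by positivity), ← pow_add]
      refine pow_le_pow_right₀ h1w ?_
      rw [Finset.card_compl]
      omega
    linarith
  refine h3.trans (Finset.sum_le_sum_of_subset_of_nonneg (Finset.filter_subset _ _)
    fun g _ _ => Finset.sum_nonneg fun W _ => ?_)
  have : (0 : ℝ) ≤ if V (plant o g W) ∧ plant o g W ∉ wf o then (1 : ℝ) else 0 := by
    split_ifs <;> norm_num
  positivity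

end Block

end Pool.Agent.H51.TA
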