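import Pool.Agent.H51.TA.Oracle

/-!
# The upper bounds: the language and its complement with advice
-/

set_option autoImplicit false

namespace Pool.Agent.H51.TA

open Finset Pool.Agent.H17.QM

/-! ### The language -/

/-- The machine that guesses a witness and checks it. -/
def verifier (p : ℕ → ℕ) : Mach := fun x =>
  {C | ∃ y : List Bool, rk y < wits x.length ∧
    C.yes = (Finset.range (bits x.length)).image (fun i => code x y (p x.length + i)) ∧ C.no = ∅}

lemma accepts_verifier (p : ℕ → ℕ) (A : List Bool → Bool) (x : List Bool) :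
    Accepts (verifier p) A x ↔ x ∈ lang p A := by
  constructor
  · rintro ⟨C, ⟨y, hy, h1, -⟩, h3, -⟩
    refine ⟨y, hy, fun i hi => h3 _ ?_⟩
    rw [h1]
    exact Finset.mem_image_of_mem _ (Finset.mem_range.2 hi)
  · rintro ⟨y, hy, h⟩
    refine ⟨⟨(Finset.range (bits x.length)).image (fun i => code x y (p x.length + i)), ∅⟩,
      ⟨y, hy, rfl, rfl⟩, fun z hz => ?_, by simp⟩
    obtain ⟨i, hi, rfl⟩ := Finset.mem_image.1 hz
    exact h i (Finset.mem_range.1 hi)

lemma length_dbl (x : List Bool) : (dbl x).length = 2 * x.length := by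
  induction x with
  | nil => rfl
  | cons b x ih =>
    have : dbl (b :: x) = true :: b :: dbl x := rfl
    rw [this]
    simp only [List.length_cons, ih]
    ring

lemma length_code (x y : List Bool) (i : ℕ) :
    (code x y i).length = 2 * x.length + 2 * y.length + i + 2 := by
  simp only [code, List.length_append, List.length_cons, List.length_replicate, length_dbl]
  ring

lemma length_wit {n : ℕ} {y : List Bool} (hy : rk y < wits n) : y.length ≤ bits n := by
  by_contra hcon
  push Not at hcon
  have h1 := le_rk y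
  have h2 : 2 ^ (bits n + 1) ≤ 2 ^ y.length := Nat.pow_le_pow_right (by norm_num) hcon
  have h3 : wits n ≤ 2 ^ bits n := by
    have h4 : (wits n : ℝ) ≤ 2 ^ bits n * Real.log 2 := Nat.floor_le (by positivity)
    have h5 : Real.log 2 ≤ 1 := by
      have := Real.log_le_sub_one_of_pos (show (0 : ℝ) < 2 by norm_num)
      linarith
    have h6 : (2 : ℝ) ^ bits n * Real.log 2 ≤ 2 ^ bits n * 1 :=
      mul_le_mul_of_nonneg_left h5 (by positivity)
    have h7 : (wits n : ℝ) ≤ ((2 ^ bits n : ℕ) : ℝ) := by push_cast; linarith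
    exact_mod_cast h7
  have h4 : 0 < 2 ^ bits n := by positivity
  rw [pow_succ] at h2
  omega

lemma time_verifier (p : ℕ → ℕ) :
    Time (verifier p) fun n => bits n * (p n + 4 * bits n) := by
  rintro x C ⟨y, hy, h1, h2⟩
  have hl := length_wit hy
  rw [Path.len, h1, h2, Finset.union_empty]
  calc ∑ z ∈ (Finset.range (bits x.length)).image (fun i => code x y (p x.length + i)), z.length
      ≤ ∑ i ∈ Finset.range (bits x.length), (code x y (p x.length + i)).length :=
        Finset.sum_image_le_of_nonneg fun _ _ => Nat.zero_le _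
    _ ≤ ∑ _i ∈ Finset.range (bits x.length), (p x.length + 4 * bits x.length) := by
        refine Finset.sum_le_sum fun i hi => ?_
        have hi' := Finset.mem_range.1 hi
        rw [length_code]
        unfold bits at *
        omega
    _ = _ := by rw [Finset.sum_const, Finset.card_range, smul_eq_mul]

/-! ### The complement -/

/-- `y` is a string of the same length as `x` that agrees with `x` except possibly in the last `j`
bits. -/
def Same (j : ℕ) (x y : List Bool) : Prop :=
  y.length = x.length ∧ y.take (x.length - j) = x.take (x.length - j)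

/-- The digit of the number `s` to the base `2 ^ j + 1` at the position given by all but the last `j`
bits of `x`. -/
def digit (j s : ℕ) (x : List Bool) : ℕ :=
  s / (2 ^ j + 1) ^ (rk (x.take (x.length - j)) - (2 ^ (x.length - j) - 1)) % (2 ^ j + 1)

/-- The machine with the advice `s` that guesses, on the input `x`, a set `S` of `digit j s x` strings
other than `x` that agree with `x` except possibly in the last `j` bits, and an accepting path of the
machine `M` on each string of `S`, where `j = j |x|`. -/
def census (M : Mach) (j : ℕ → ℕ) (s : ℕ) : Mach := fun x =>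
  {C | ∃ (S : Finset (List Bool)) (f : List Bool → Path), S.card = digit (j x.length) s x ∧
    (∀ y ∈ S, y ≠ x ∧ Same (j x.length) x y ∧ f y ∈ M y) ∧
    C.yes = S.biUnion (fun y => (f y).yes) ∧ C.no = S.biUnion fun y => (f y).no}

lemma sum_biUnion_le {α β : Type*} [DecidableEq α] [DecidableEq β] (S : Finset α)
    (g : α → Finset β) (w : β → ℕ) :
    ∑ z ∈ S.biUnion g, w z ≤ ∑ y ∈ S, ∑ z ∈ g y, w z := by
  induction S using Finset.induction_on with
  | empty => simp
  | insert a S ha ih =>
    rw [Finset.biUnion_insert, Finset.sum_insert ha]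
    have := Finset.sum_union_inter (s₁ := g a) (s₂ := S.biUnion g) (f := w)
    omega

open Classical in
/-- The block of `u`. -/
noncomputable def block (j : ℕ) (u : List Bool) : Finset (List Bool) :=
  univ.image fun i : Fin (2 ^ j) => u ++ inp j i

lemma card_block (j : ℕ) (u : List Bool) : (block j u).card ≤ 2 ^ j := by
  classical
  refine Finset.card_image_le.trans ?_
  simp

lemma mem_block {j n : ℕ} (hj : j ≤ n) {x y : List Bool} (hx : x.length = n) :
    y ∈ block j (x.take (n - j)) ↔ Same j x y := by
  classical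
  rw [block, Finset.mem_image, Same, hx]
  constructor
  · rintro ⟨i, -, rfl⟩
    have h1 : (x.take (n - j)).length = n - j := by rw [List.length_take]; omega
    refine ⟨?_, ?_⟩
    · rw [List.length_append, h1, length_inp]; omega
    · rw [List.take_append_of_le_length (by rw [h1]), List.take_of_length_le (by rw [h1])]
  · rintro ⟨h1, h2⟩
    have h3 : (y.drop (n - j)).length = j := by rw [List.length_drop]; omega
    obtain ⟨i, hi⟩ := exists_inp h3
    refine ⟨i, Finset.mem_univ _, ?_⟩
    rw [hi, ← h2, List.take_append_drop]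

lemma time_census {M : Mach} {t j : ℕ → ℕ} (hM : Time M t) (hj : ∀ n, j n ≤ n) (s : ℕ) :
    Time (census M j s) fun n => 2 ^ j n * t n := by
  classical
  rintro x C ⟨S, f, -, h2, h3, h4⟩
  have h5 : S.card ≤ 2 ^ j x.length := by
    refine le_trans (Finset.card_le_card fun y hy => ?_)
      (card_block (j x.length) (x.take (x.length - j x.length)))
    exact (mem_block (hj _) rfl).2 (h2 y hy).2.1
  calc C.len = ∑ z ∈ S.biUnion (fun y => (f y).yes ∪ (f y).no), z.length := by
        rw [Path.len]
        refine Finset.sum_congr ?_ fun _ _ => rfl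
        rw [h3, h4]
        ext z
        simp only [Finset.mem_union, Finset.mem_biUnion]
        constructor
        · rintro (⟨y, hy, hz⟩ | ⟨y, hy, hz⟩)
          exacts [⟨y, hy, Or.inl hz⟩, ⟨y, hy, Or.inr hz⟩]
        · rintro ⟨y, hy, hz | hz⟩
          exacts [Or.inl ⟨y, hy, hz⟩, Or.inr ⟨y, hy, hz⟩]
    _ ≤ ∑ y ∈ S, ∑ z ∈ (f y).yes ∪ (f y).no, z.length := sum_biUnion_le _ _ _
    _ ≤ ∑ _y ∈ S, t x.length := by
        refine Finset.sum_le_sum fun y hy => ?_
        have := hM y (f y) (h2 y hy).2.2
        rwa [(h2 y hy).2.1.1] at this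
    _ = S.card * t x.length := by rw [Finset.sum_const, smul_eq_mul]
    _ ≤ _ := Nat.mul_le_mul_right _ h5

/-- With the right advice the machine `census M j` accepts exactly the inputs of length `n` that `M`
does not accept. -/
theorem accepts_census (M : Mach) {j : ℕ → ℕ} (hj : ∀ n, j n ≤ n) (A : List Bool → Bool) (n : ℕ) :
    ∃ s < (2 ^ j n + 1) ^ 2 ^ (n - j n), ∀ x : List Bool, x.length = n →
      (Accepts (census M j s) A x ↔ ¬ Accepts M A x) := by
  classical
  set B : List Bool → Finset (List Bool) := fun u => (block (j n) u).filter (Accepts M A) with hB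
  have hBc : ∀ u, (B u).card < 2 ^ j n + 1 := fun u =>
    Nat.lt_succ_of_le ((Finset.card_filter_le _ _).trans (card_block _ _))
  set c : Fin (2 ^ (n - j n)) → Fin (2 ^ j n + 1) := fun i => ⟨(B (inp (n - j n) i)).card, hBc _⟩
    with hc
  refine ⟨finFunctionFinEquiv c, (finFunctionFinEquiv c).2, fun x hx => ?_⟩
  have hjn := hj n
  have hlt : (x.take (n - j n)).length = n - j n := by rw [List.length_take]; omega
  have hdig : digit (j n) (finFunctionFinEquiv c) x = (B (x.take (n - j n))).card := by
    obtain ⟨i, hi⟩ := exists_inp hlt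
    have h1 : rk (x.take (n - j n)) - (2 ^ (n - j n) - 1) = i := by
      rw [← hi, inp, rk_str]
      omega
    have h2 := finFunctionFinEquiv.symm_apply_apply c
    have h3 := congrArg (fun g => (g i : ℕ)) h2
    simp only [finFunctionFinEquiv_symm_apply_val] at h3
    rw [digit, hx, h1, h3, ← hi]
  constructor
  · rintro ⟨C, ⟨S, f, h1, h2, h3, h4⟩, h5, h6⟩ hacc
    rw [hx, hdig] at h1
    have hSB : S ⊆ (B (x.take (n - j n))).erase x := by
      intro y hy
      obtain ⟨h7, h8, h9⟩ := h2 y hy
      rw [hx] at h8
      rw [Finset.mem_erase, hB, Finset.mem_filter]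
      refine ⟨h7, (mem_block hjn hx).2 h8, f y, h9, fun z hz => h5 z ?_, fun z hz => h6 z ?_⟩
      · rw [h3]; exact Finset.mem_biUnion.2 ⟨y, hy, hz⟩
      · rw [h4]; exact Finset.mem_biUnion.2 ⟨y, hy, hz⟩
    have hxB : x ∈ B (x.take (n - j n)) := by
      rw [hB, Finset.mem_filter]
      exact ⟨(mem_block hjn hx).2 ⟨rfl, rfl⟩, hacc⟩
    have h7 := Finset.card_le_card hSB
    have h8 := Finset.card_erase_lt_of_mem hxB
    omega
  · intro hacc
    have h1 : ∀ y : List Bool, ∃ C : Path, Accepts M A y → C ∈ M y ∧ C.In A := by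
      intro y
      by_cases h : Accepts M A y
      · obtain ⟨C, h2, h3⟩ := h
        exact ⟨C, fun _ => ⟨h2, h3⟩⟩
      · exact ⟨⟨∅, ∅⟩, fun h' => absurd h' h⟩
    choose f hf using h1
    have hmem : ∀ y ∈ B (x.take (n - j n)), Same (j n) x y ∧ Accepts M A y := by
      intro y hy
      rw [hB, Finset.mem_filter] at hy
      exact ⟨(mem_block hjn hx).1 hy.1, hy.2⟩
    refine ⟨⟨(B (x.take (n - j n))).biUnion fun y => (f y).yes,
      (B (x.take (n - j n))).biUnion fun y => (f y).no⟩,
      ⟨B (x.take (n - j n)), f, ?_, fun y hy => ?_, rfl, rfl⟩, fun z hz => ?_, fun z hz => ?_⟩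
    · rw [hx, hdig]
    · obtain ⟨h2, h3⟩ := hmem y hy
      refine ⟨?_, ?_, (hf y h3).1⟩
      · rintro rfl; exact hacc h3
      · rw [hx]; exact h2
    · obtain ⟨y, hy, hz⟩ := Finset.mem_biUnion.1 hz
      exact (hf y (hmem y hy).2).2.1 z hz
    · obtain ⟨y, hy, hz⟩ := Finset.mem_biUnion.1 hz
      exact (hf y (hmem y hy).2).2.2 z hz

end Pool.Agent.H51.TA
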