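import Pool.Agent.H17.AD.Main
import Pool.Agent.H51.TA.Upper

/-!
# The counting language: fewer than about `n` bits of advice never suffice
-/

set_option autoImplicit false

namespace Pool.Agent.H51.TA

open Finset MeasureTheory Filter Topology Pool.Agent.H17.QM

section

variable {Y I : Type} [Fintype Y] [DecidableEq Y] [Fintype I] [DecidableEq I]
  {e : Y × I → List Bool}

/-- Some input with threshold at most `j` is accepted. -/
def Low {R : ℕ} (V : Fin R → Set Path) (θ j : ℕ) (A : List Bool → Bool) : Prop :=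
  ∃ i : Fin R, θ + (i : ℕ) ≤ j ∧ ∃ C ∈ V i, C.In A

open Classical in
/-- The indicator of `Low`. -/
noncomputable def low {R : ℕ} (V : Fin R → Set Path) (θ j : ℕ) (A : List Bool → Bool) : ℝ :=
  if Low V θ j A then 1 else 0

lemma low_nonneg {R : ℕ} (V : Fin R → Set Path) (θ j : ℕ) (A : List Bool → Bool) :
    0 ≤ low V θ j A := by
  unfold low; split_ifs <;> norm_num

lemma low_le_one {R : ℕ} (V : Fin R → Set Path) (θ j : ℕ) (A : List Bool → Bool) :
    low V θ j A ≤ 1 := by
  unfold low; split_ifs <;> norm_num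

lemma low_mono {R : ℕ} (V : Fin R → Set Path) (θ j : ℕ) (A : List Bool → Bool) :
    low V θ j A ≤ low V θ (j + 1) A := by
  unfold low
  by_cases h : Low V θ j A
  · obtain ⟨i, hi, h1⟩ := h
    have h2 : Low V θ (j + 1) A := ⟨i, hi.trans (Nat.le_succ j), h1⟩
    rw [if_pos ⟨i, hi, h1⟩, if_pos h2]
  · rw [if_neg h]
    split_ifs <;> norm_num

lemma low_drop (he : Function.Injective e) (hpos : ∀ q, 1 ≤ (e q).length) {R : ℕ}
    (V : Fin R → Set Path) {T : ℕ} (hT : ∀ i, ∀ C ∈ V i, C.len ≤ T) (o : I → Bool)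
    (ω : List Bool → Bool) (g : Y → I → Bool) (θ j : ℕ) (W : Finset Y) :
    ∑ y ∈ Wᶜ, (low V θ j (fill e ω (plant o g W)) -
      low V θ j (fill e ω (plant o g (insert y W)))) ≤ T := by
  classical
  by_cases h : Low V θ j (fill e ω (plant o g W))
  · obtain ⟨i, hi, C, hC, hin⟩ := h
    set D : Finset Y := univ.filter fun y => ∃ k, e (y, k) ∈ C.yes ∪ C.no with hD
    have hterm : ∀ y ∈ Wᶜ, low V θ j (fill e ω (plant o g W)) -
        low V θ j (fill e ω (plant o g (insert y W))) ≤ if y ∈ D then 1 else 0 := by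
      intro y _
      by_cases hy : y ∈ D
      · rw [if_pos hy]
        have h1 := low_le_one V θ j (fill e ω (plant o g W))
        have h2 := low_nonneg V θ j (fill e ω (plant o g (insert y W)))
        linarith
      · rw [if_neg hy]
        have h1 : Low V θ j (fill e ω (plant o g (insert y W))) := by
          refine ⟨i, hi, C, hC, in_congr (fun z hz => ?_) hin⟩
          by_cases hz' : ∃ q, e q = z
          · obtain ⟨⟨y', k⟩, rfl⟩ := hz'
            have hne : y' ≠ y := by
              rintro rfl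
              exact hy (Finset.mem_filter.2 ⟨Finset.mem_univ _, k, hz⟩)
            rw [fill_block e he, fill_block e he]
            by_cases hW : y' ∈ W
            · have h7 : y' ∈ insert y W := mem_insert_of_mem hW
              simp only [plant, if_pos hW, if_pos h7]
            · have h7 : y' ∉ insert y W := by
                rw [mem_insert]; tauto
              simp only [plant, if_neg hW, if_neg h7]
          · rw [fill_off _ _ _ fun q hq => hz' ⟨q, hq⟩, fill_off _ _ _ fun q hq => hz' ⟨q, hq⟩]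
        have h2 : low V θ j (fill e ω (plant o g (insert y W))) = 1 := if_pos h1
        have h3 := low_le_one V θ j (fill e ω (plant o g W))
        rw [h2]
        linarith
    have hcard : D.card ≤ T := by
      have h1 : ∀ y ∈ D, ∃ k : I, e (y, k) ∈ C.yes ∪ C.no := fun y hy =>
        (Finset.mem_filter.1 hy).2
      choose q hq using h1
      have h2 := card_touched (p := 1) C D.attach (fun y => e (y.1, q y.1 y.2)) (by
        intro a _ b _ hab
        have := he hab
        simp only [Prod.mk.injEq] at this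
        exact Subtype.ext this.1) (fun y _ => hq y.1 y.2) fun y _ => hpos _
      rw [Finset.card_attach, mul_one] at h2
      exact h2.trans (hT i C hC)
    calc ∑ y ∈ Wᶜ, (low V θ j (fill e ω (plant o g W)) -
          low V θ j (fill e ω (plant o g (insert y W))))
        ≤ ∑ y ∈ Wᶜ, (if y ∈ D then (1 : ℝ) else 0) := Finset.sum_le_sum hterm
      _ ≤ ∑ y : Y, (if y ∈ D then (1 : ℝ) else 0) :=
          Finset.sum_le_sum_of_subset_of_nonneg (Finset.subset_univ _)
            fun y _ _ => by split_ifs <;> norm_num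
      _ = D.card := by
          rw [Finset.sum_boole]
          congr 2
          ext y
          simp
      _ ≤ T := by exact_mod_cast hcard
  · have h1 : low V θ j (fill e ω (plant o g W)) = 0 := if_neg h
    refine le_trans (Finset.sum_nonpos fun y _ => ?_) (Nat.cast_nonneg T)
    rw [h1]
    have := low_nonneg V θ j (fill e ω (plant o g (insert y W)))
    linarith

/-- The machine is right at the inputs `i < R` if the number of witnesses is `k`. -/
def Cr {R : ℕ} (V : Fin R → Set Path) (θ k : ℕ) (A : List Bool → Bool) : Prop :=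
  ∀ i : Fin R, (∃ C ∈ V i, C.In A) ↔ ¬ θ + (i : ℕ) ≤ k

open Classical in
/-- The weight of the tables for which one advice value is right and the number of witnesses lies in
the window. -/
theorem weight_right (he : Function.Injective e) (hpos : ∀ q, 1 ≤ (e q).length) {R θ : ℕ}
    (V : Fin R → Set Path) {T : ℕ} (hT : ∀ i, ∀ C ∈ V i, C.len ≤ T) (o : I → Bool)
    (ω : List Bool → Bool) (g : Y → I → Bool) {M l : ℕ} (hM : 2 ≤ M) (hl : 1 ≤ l)
    (hY : Fintype.card Y = M * l) {r : ℕ} (hr : 1 ≤ r) (hr2 : 2 * r ^ 2 ≤ l + 1) {m : ℝ}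
    (hm : 0 < m) (hcard : (θ : ℝ) + R + m ≤ (M : ℝ) * l) :
    ∑ W : Finset Y, (1 / ((M : ℝ) - 1)) ^ W.card *
      (if (θ ≤ W.card ∧ W.card < θ + (R - 1)) ∧ Cr V θ W.card (fill e ω (plant o g W))
        then (1 : ℝ) else 0) ≤
      2 / r * (1 + R * (T / m)) * (1 + 1 / ((M : ℝ) - 1)) ^ (M * l) := by
  have hM' : (2 : ℝ) ≤ M := by exact_mod_cast hM
  have hw : (0 : ℝ) ≤ 1 / ((M : ℝ) - 1) := by
    have : (0 : ℝ) < (M : ℝ) - 1 := by linarith
    positivity
  have hδ : (0 : ℝ) ≤ T / m := by positivity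
  have hcardN : θ + (R - 1) ≤ Fintype.card Y := by
    rw [hY]
    have : (θ : ℝ) + R ≤ (M * l : ℕ) := by push_cast; linarith
    have h1 : θ + R ≤ M * l := by exact_mod_cast this
    omega
  have h1 := chain hw (fun j W => low V θ j (fill e ω (plant o g W)))
    (fun j W => low_nonneg _ _ _ _) (fun j W => low_le_one _ _ _ _) (fun j W => low_mono _ _ _ _)
    (k0 := θ) (N := R - 1) (δ := T / m)
    (B := 2 / r * (1 + 1 / ((M : ℝ) - 1)) ^ (M * l)) ?_ (by positivity) hcardN ?_
    (fun W => Cr V θ W.card (fill e ω (plant o g W))) ?_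
  · refine le_trans (le_of_eq ?_) (h1.trans ?_)
    · refine sum_congr rfl fun W _ => ?_
      congr
    have h2 : ((R - 1 : ℕ) : ℝ) ≤ R := by exact_mod_cast Nat.sub_le R 1
    have h3 : (0 : ℝ) ≤ 2 / r * (1 + 1 / ((M : ℝ) - 1)) ^ (M * l) := by positivity
    calc 2 / (r : ℝ) * (1 + 1 / ((M : ℝ) - 1)) ^ (M * l) * (1 + ((R - 1 : ℕ) : ℝ) * (T / m))
        ≤ 2 / (r : ℝ) * (1 + 1 / ((M : ℝ) - 1)) ^ (M * l) * (1 + R * (T / m)) := by
          refine mul_le_mul_of_nonneg_left ?_ h3
          have := mul_le_mul_of_nonneg_right h2 hδ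
          linarith
      _ = _ := by ring
  · intro k
    rw [hY]
    exact bw_le hM hl hr hr2 k
  · intro j W hW1 hW2
    refine (low_drop he hpos V hT o ω g θ j W).trans ?_
    have hWm : m ≤ (Fintype.card Y : ℝ) - W.card := by
      have h2 : (W.card : ℝ) ≤ θ + R := by
        have : W.card ≤ θ + R := by omega
        exact_mod_cast this
      rw [hY]
      push_cast
      linarith
    calc (T : ℝ) = T / m * m := by field_simp
      _ ≤ T / m * ((Fintype.card Y : ℝ) - W.card) := mul_le_mul_of_nonneg_left hWm hδ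
  · intro W hW hk1 hk2
    refine ⟨?_, ?_⟩
    · have hi : W.card + 1 - θ < R := by omega
      refine if_pos ⟨⟨W.card + 1 - θ, hi⟩, ?_, (hW ⟨W.card + 1 - θ, hi⟩).2 ?_⟩
      · simp only; omega
      · simp only; omega
    · refine if_neg ?_
      rintro ⟨i, hi, h⟩
      exact (hW i).1 h hi

/-- The pointwise inequality. -/
theorem point_right (he : Function.Injective e) (hpos : ∀ q, 1 ≤ (e q).length) {R N θ : ℕ}
    (V : ℕ → Fin R → Set Path) {T : ℕ} (hT : ∀ s i, ∀ C ∈ V s i, C.len ≤ T) (o : I → Bool)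
    (ω : List Bool → Bool) {M l : ℕ} (hM : 2 ≤ M) (hMI : Fintype.card (I → Bool) = M) (hl : 1 ≤ l)
    (hY : Fintype.card Y = M * l) {r : ℕ} (hr : 1 ≤ r) (hr2 : 2 * r ^ 2 ≤ l + 1) {m σ : ℝ}
    (hm : 0 < m) (hσ : 0 < σ) (hcard : (θ : ℝ) + R + m ≤ (M : ℝ) * l)
    (hwin : ∀ k : ℕ, ¬ (θ ≤ k ∧ k < θ + (R - 1)) → σ ≤ |(k : ℝ) - l|)
    {Z : Set (List Bool → Bool)}
    (hZ : ∀ g ∈ wf (Y := Y) o, ∀ W, fill e ω (plant o g W) ∈ Z → ∃ s < N,
      Cr (V s) θ W.card (fill e ω (plant o g W))) :
    ∑ g : Y → I → Bool, Z.indicator (fun _ => (1 : ℝ)) (fill e ω g) ≤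
      (l / σ ^ 2 + N * (2 / r * (1 + R * (T / m)))) * Fintype.card (Y → I → Bool) := by
  classical
  have hw : wq (I → Bool) = 1 / ((M : ℝ) - 1) := by rw [wq, hMI]
  rw [sum_eq_plant (Y := Y) o (by rw [hMI]; exact hM)]
  have h1 := combine (P := Y) (by rw [hMI]; exact hM) o (A := 0)
    (B := l / σ ^ 2 + N * (2 / r * (1 + R * (T / m))))
    (f := fun g => ∑ W : Finset Y, wq (I → Bool) ^ W.card *
      Z.indicator (fun _ => (1 : ℝ)) (fill e ω (plant o g W))) (g := fun _ => 0) ?_
  · simpa only [zero_mul, zero_add] using h1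
  intro g hg
  rw [zero_mul, zero_add, hw, hY]
  set w : ℝ := 1 / ((M : ℝ) - 1) with hwdef
  have hw0 : 0 ≤ w := by
    have hM' : (2 : ℝ) ≤ M := by exact_mod_cast hM
    have : (0 : ℝ) < (M : ℝ) - 1 := by linarith
    positivity
  have hterm : ∀ W : Finset Y, w ^ W.card *
      Z.indicator (fun _ => (1 : ℝ)) (fill e ω (plant o g W)) ≤
      w ^ W.card * (if ¬ (θ ≤ W.card ∧ W.card < θ + (R - 1)) then (1 : ℝ) else 0) +
      ∑ s ∈ range N, w ^ W.card *
        (if (θ ≤ W.card ∧ W.card < θ + (R - 1)) ∧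
          Cr (V s) θ W.card (fill e ω (plant o g W)) then (1 : ℝ) else 0) := by
    intro W
    rw [← mul_sum, ← mul_add]
    refine mul_le_mul_of_nonneg_left ?_ (by positivity)
    have hnn : ∀ s ∈ range N,
        (0 : ℝ) ≤ if (θ ≤ W.card ∧ W.card < θ + (R - 1)) ∧
          Cr (V s) θ W.card (fill e ω (plant o g W)) then (1 : ℝ) else 0 := by
      intro s _
      split_ifs <;> norm_num
    by_cases hmem : fill e ω (plant o g W) ∈ Z
    · rw [Set.indicator_of_mem hmem]
      by_cases hw1 : θ ≤ W.card ∧ W.card < θ + (R - 1)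
      · obtain ⟨s, hs, h2⟩ := hZ g hg W hmem
        have h3 := single_le_sum hnn (mem_range.2 hs)
        rw [if_pos ⟨hw1, h2⟩] at h3
        rw [if_neg (not_not.2 hw1), zero_add]
        exact h3
      · rw [if_pos hw1]
        have := sum_nonneg hnn
        linarith
    · rw [Set.indicator_of_notMem hmem]
      have h4 := sum_nonneg hnn
      split_ifs
      · linarith
      · linarith
  calc ∑ W : Finset Y, w ^ W.card * Z.indicator (fun _ => (1 : ℝ)) (fill e ω (plant o g W))
      ≤ ∑ W : Finset Y,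
        (w ^ W.card * (if ¬ (θ ≤ W.card ∧ W.card < θ + (R - 1)) then (1 : ℝ) else 0) +
        ∑ s ∈ range N, w ^ W.card *
        (if (θ ≤ W.card ∧ W.card < θ + (R - 1)) ∧
          Cr (V s) θ W.card (fill e ω (plant o g W)) then (1 : ℝ) else 0)) :=
        sum_le_sum fun W _ => hterm W
    _ = (∑ W : Finset Y,
        w ^ W.card * (if ¬ (θ ≤ W.card ∧ W.card < θ + (R - 1)) then (1 : ℝ) else 0)) +
        ∑ s ∈ range N, ∑ W : Finset Y, w ^ W.card *
        (if (θ ≤ W.card ∧ W.card < θ + (R - 1)) ∧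
          Cr (V s) θ W.card (fill e ω (plant o g W)) then (1 : ℝ) else 0) := by
        rw [sum_add_distrib, sum_comm]
    _ ≤ l / σ ^ 2 * (1 + w) ^ (M * l) +
        ∑ _s ∈ range N, 2 / r * (1 + R * (T / m)) * (1 + w) ^ (M * l) := by
        refine add_le_add ?_ (sum_le_sum fun s _ => ?_)
        · have h5 := bw_tail hY hM hσ (fun k => ¬ (θ ≤ k ∧ k < θ + (R - 1))) hwin
          refine le_trans (le_of_eq ?_) h5
          refine sum_congr rfl fun W _ => ?_
          congr
        · have h6 := weight_right he hpos (V s) (hT s) o ω g hM hl hY hr hr2 hm hcard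
          refine le_trans (le_of_eq ?_) h6
          refine sum_congr rfl fun W _ => ?_
          congr
    _ = _ := by
        rw [sum_const, card_range, nsmul_eq_mul]
        ring

end

end Pool.Agent.H51.TA
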