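import Pool.Agent.H51.TA.Count

/-!
# The counting language: the probability, the main theorem, the machine
-/

set_option autoImplicit false

namespace Pool.Agent.H51.TA

open Finset MeasureTheory Filter Topology Pool.Agent.H17.QM

/-- Some advice value below `N` is right on all inputs of length `n`. -/
def SomeRight (t : ℕ → ℕ) (M : ℕ → Mach) (N n : ℕ) : Set (List Bool → Bool) :=
  ⋃ s ∈ Finset.range N,
    {A | ∀ x : List Bool, x.length = n → (Accepts (M s) A x ↔ x ∉ cntlang t A)}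

lemma measurableSet_someRight (t : ℕ → ℕ) (M : ℕ → Mach) (N n : ℕ) :
    MeasurableSet (SomeRight t M N n) := by
  refine Finset.measurableSet_biUnion _ fun s _ => ?_
  have : {A : List Bool → Bool | ∀ x : List Bool, x.length = n →
      (Accepts (M s) A x ↔ x ∉ cntlang t A)} = ⋂ x : List Bool, ⋂ _ : x.length = n,
      (({A | Accepts (M s) A x} ∩ {A | x ∈ cntlang t A}ᶜ) ∪
        ({A | Accepts (M s) A x}ᶜ ∩ {A | x ∈ cntlang t A})) := by
    ext A
    simp only [Set.mem_ofPred_eq, Set.mem_iInter, Set.mem_inter_iff, Set.mem_union,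
      Set.mem_compl_iff]
    refine forall_congr' fun x => forall_congr' fun _ => ?_
    tauto
  rw [this]
  refine MeasurableSet.iInter fun x => MeasurableSet.iInter fun _ => ?_
  exact ((measurableSet_accepts (M s) x).inter (measurableSet_cntlang x).compl).union
    ((measurableSet_accepts (M s) x).compl.inter (measurableSet_cntlang x))

/-- The probability that some advice value is right. -/
theorem prob_someRight (t : ℕ → ℕ) (M : ℕ → Mach) {n N T : ℕ}
    (hT : ∀ s x, x.length = n → ∀ C ∈ M s x, C.len ≤ T)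
    (hmean : 1 + 2 ^ (n - 1) ≤ mean n) {r : ℕ} (hr : 1 ≤ r) (hr2 : 2 * r ^ 2 ≤ mean n + 1)
    {m σ : ℝ} (hm : 0 < m) (hσ : 0 < σ)
    (hcard : (thr n : ℝ) + 2 ^ n + m ≤ (2 : ℝ) ^ chk t n * mean n)
    (hwin : ∀ k : ℕ, ¬ (thr n ≤ k ∧ k < thr n + (2 ^ n - 1)) → σ ≤ |(k : ℝ) - mean n|) :
    (coins (List Bool)).real (SomeRight t M N n) ≤
      mean n / σ ^ 2 + N * (2 / r * (1 + 2 ^ n * (T / m))) := by
  classical
  set τ : ℝ := mean n / σ ^ 2 + N * (2 / r * (1 + 2 ^ n * (T / m))) with hτ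
  have hτ0 : 0 ≤ τ := by positivity
  have hpt : ∀ ω, ∑ g : Fin (2 ^ chk t n * mean n) → Fin (chk t n) → Bool,
      (SomeRight t M N n).indicator (fun _ => (1 : ℝ)) (fill (ablk t n) ω g) ≤
      τ * Fintype.card (Fin (2 ^ chk t n * mean n) → Fin (chk t n) → Bool) := by
    intro ω
    have h1 := point_right (ablk_injective t n) (fun q => by
        simp only [ablk, length_code]; omega) (R := 2 ^ n) (N := N) (θ := thr n)
      (fun s i => M s (str (2 ^ n - 1 + (i : ℕ))))
      (fun s i => hT s _ (length_str_add i.2)) (fun _ => true) ω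
      (M := 2 ^ chk t n) (l := mean n)
      (by
        have : chk t n = 2 * t n + 2 * n + 1 + 1 := rfl
        rw [this, pow_succ]
        have : 0 < 2 ^ (2 * t n + 2 * n + 1) := by positivity
        omega)
      (card_bits n) ((Nat.le_add_right 1 _).trans hmean) (by simp) hr hr2 hm hσ
      (by push_cast; exact hcard) hwin (Z := SomeRight t M N n) ?_
    · refine h1.trans (le_of_eq ?_)
      rw [hτ]
      push_cast
      rfl
    intro g hg W hmem
    simp only [SomeRight, Set.mem_iUnion, Finset.mem_range] at hmem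
    obtain ⟨s, hs, hA⟩ := hmem
    refine ⟨s, hs, fun i => ?_⟩
    have h2 := hA _ (length_str_add i.2)
    rw [mem_cntlang i.2 hmean, ncard_witnesses n ω hg W] at h2
    exact h2
  have h2 := level_measure (ablk_injective t n)
    (measurableSet_someRight t M N n) (S := Set.univ) (E := Set.univ)
    MeasurableSet.univ MeasurableSet.univ (fun _ _ => Iff.rfl) (μ := 0) (τ := τ)
    (fun ω => by simpa only [zero_mul, zero_add] using hpt ω) hτ0
  simpa only [zero_mul, zero_add, Set.univ_inter] using h2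

theorem prob_bound' (t : ℕ → ℕ) {M : ℕ → Mach} {C : ℕ}
    (hC : ∀ s, Time (M s) fun n => C * 2 ^ t n) (N : ℕ) {n : ℕ} (hn : 12 ≤ n) :
    (coins (List Bool)).real (SomeRight t M N n) ≤
      16 / ((n : ℝ) + 1) ^ 2 + 8 * (1 + C) * ((((n : ℝ) + 1) * N) / 2 ^ n) := by
  obtain ⟨hm1, hm2, hm3, hm4⟩ := mean_bounds hn
  have hsq := sq_le_pow hn
  have hp : (0 : ℝ) < 2 ^ n := by positivity
  have hn1 : (0 : ℝ) < (n : ℝ) + 1 := by positivity
  have h4 : (4 : ℝ) ^ n = 2 ^ n * 2 ^ n := by rw [← mul_pow]; norm_num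
  have h2n : 2 ^ n = 2 * 2 ^ (n - 1) := by
    obtain ⟨k, rfl⟩ : ∃ k, n = k + 1 := ⟨n - 1, by omega⟩
    rw [Nat.add_sub_cancel, pow_succ]; ring
  have h4n : 2 ^ (n - 1) = 2 * 2 ^ (n - 2) := by
    obtain ⟨k, rfl⟩ : ∃ k, n = k + 2 := ⟨n - 2, by omega⟩
    have e1 : k + 2 - 1 = k + 1 := by omega
    rw [Nat.add_sub_cancel, e1, pow_succ]; ring
  have hpos2 : 2 ≤ 2 ^ (n - 2) := by
    calc 2 = 2 ^ 1 := by norm_num
      _ ≤ 2 ^ (n - 2) := Nat.pow_le_pow_right (by norm_num) (by omega)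
  set r : ℕ := 2 ^ n / (2 * (n + 1)) with hr
  have hr1 : 1 ≤ r := by
    rw [hr, Nat.le_div_iff_mul_le (by positivity)]
    nlinarith
  have hrle : (r : ℝ) ≤ 2 ^ n / (2 * ((n : ℝ) + 1)) := by
    have := Nat.cast_div_le (α := ℝ) (m := 2 ^ n) (n := 2 * (n + 1))
    push_cast at this
    exact this
  have hrge : (2 : ℝ) ^ n / (4 * ((n : ℝ) + 1)) ≤ r := by
    have h5 := (Nat.div_lt_iff_lt_mul (show 0 < 2 * (n + 1) by positivity)).1
      (Nat.lt_succ_self (2 ^ n / (2 * (n + 1))))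
    have h6 : 2 ^ n ≤ (r + 1) * (2 * (n + 1)) := by rw [hr]; exact h5.le
    have h7 : 2 ^ n ≤ r * (4 * (n + 1)) := by nlinarith
    rw [div_le_iff₀ (by positivity)]
    exact_mod_cast h7
  have hr2 : 2 * r ^ 2 ≤ mean n + 1 := by
    have h5 : (2 : ℝ) * (r : ℝ) ^ 2 ≤ mean n + 1 := by
      refine le_trans ?_ hm3
      have h6 : (r : ℝ) ^ 2 ≤ (2 ^ n / (2 * ((n : ℝ) + 1))) ^ 2 :=
        pow_le_pow_left₀ (Nat.cast_nonneg _) hrle 2
      calc (2 : ℝ) * (r : ℝ) ^ 2 ≤ 2 * (2 ^ n / (2 * ((n : ℝ) + 1))) ^ 2 := by linarith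
        _ = 4 ^ n / ((n : ℝ) + 1) ^ 2 / 2 := by
            rw [h4]; field_simp
        _ ≤ 4 ^ n / ((n : ℝ) + 1) ^ 2 := by
            have : (0 : ℝ) ≤ 4 ^ n / ((n : ℝ) + 1) ^ 2 := by positivity
            linarith
    exact_mod_cast h5
  set u : ℝ := 2 ^ (t n + 2 * n) / ((n : ℝ) + 1) with hu
  have hu0 : 0 < u := by positivity
  have hchk : (2 : ℝ) ^ chk t n = 4 * ((2 ^ t n) ^ 2 * (2 ^ n * 2 ^ n)) := by
    rw [chk, pow_add, pow_add, pow_mul, pow_mul, ← pow_mul, ← pow_mul, mul_comm 2 (t n),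
      mul_comm 2 n, pow_mul, pow_mul]
    ring
  have hcard : (thr n : ℝ) + 2 ^ n + u ^ 2 ≤ (2 : ℝ) ^ chk t n * mean n := by
    have h5 : (thr n : ℝ) ≤ mean n := by
      have : thr n ≤ mean n := by rw [thr]; omega
      exact_mod_cast this
    have h6 : (2 : ℝ) ^ n ≤ mean n := by
      have : 2 ^ n ≤ mean n := by omega
      exact_mod_cast this
    have h7 : u ^ 2 = (2 ^ t n) ^ 2 * (2 ^ n * 2 ^ n) * (4 ^ n / ((n : ℝ) + 1) ^ 2) := by
      rw [hu, div_pow, pow_add, h4]
      have : (2 : ℝ) ^ (2 * n) = 2 ^ n * 2 ^ n := by rw [two_mul, pow_add]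
      rw [this]
      field_simp
    have h8 : 4 ^ n / ((n : ℝ) + 1) ^ 2 ≤ 2 * mean n := by
      have e : (4 : ℝ) ^ n / (2 * ((n : ℝ) + 1) ^ 2) = (4 ^ n / ((n : ℝ) + 1) ^ 2) / 2 := by
        field_simp
      rw [e] at hm1
      linarith
    set P : ℝ := (2 ^ t n) ^ 2 * (2 ^ n * 2 ^ n) with hP
    have hP1 : 1 ≤ P := by
      have h9 : (1 : ℝ) ≤ 2 ^ t n := one_le_pow₀ (by norm_num)
      have h10 : (1 : ℝ) ≤ 2 ^ n := one_le_pow₀ (by norm_num)
      have h11 : (1 : ℝ) ≤ (2 ^ t n) ^ 2 := one_le_pow₀ h9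
      have h12 : (1 : ℝ) ≤ 2 ^ n * 2 ^ n := by nlinarith
      rw [hP]
      nlinarith
    have h9 : P * (4 ^ n / ((n : ℝ) + 1) ^ 2) ≤ P * (2 * mean n) :=
      mul_le_mul_of_nonneg_left h8 (by linarith)
    rw [h7, hchk]
    have h10 : (0 : ℝ) ≤ mean n := Nat.cast_nonneg _
    nlinarith
  have hwin : ∀ k : ℕ, ¬ (thr n ≤ k ∧ k < thr n + (2 ^ n - 1)) →
      (2 : ℝ) ^ n / 4 ≤ |(k : ℝ) - mean n| := by
    intro k hk
    have e : (2 : ℝ) ^ n / 4 = ((2 ^ (n - 2) : ℕ) : ℝ) := by
      have : (2 : ℝ) ^ n = ((2 ^ n : ℕ) : ℝ) := by push_cast; rfl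
      rw [this, h2n, h4n]
      push_cast
      ring
    rw [e]
    have hcases : k + 2 ^ (n - 2) ≤ mean n ∨ mean n + 2 ^ (n - 2) ≤ k := by
      rw [thr] at hk
      omega
    rcases hcases with h | h
    · have h' : (k : ℝ) + ((2 ^ (n - 2) : ℕ) : ℝ) ≤ mean n := by exact_mod_cast h
      rw [abs_sub_comm]
      exact le_trans (by linarith) (le_abs_self _)
    · have h' : (mean n : ℝ) + ((2 ^ (n - 2) : ℕ) : ℝ) ≤ k := by exact_mod_cast h
      exact le_trans (by linarith) (le_abs_self _)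
  have h1 := prob_someRight t (N := N) (T := C * 2 ^ t n) (m := u ^ 2)
    (σ := 2 ^ n / 4) M (fun s x hx P hP => by
      have := hC s x P hP
      rw [hx] at this
      exact this) (by omega) hr1 hr2 (by positivity) (by positivity) hcard hwin
  refine h1.trans (add_le_add ?_ ?_)
  · rw [div_le_iff₀ (by positivity)]
    refine hm2.trans (le_of_eq ?_)
    rw [h4]
    field_simp
    norm_num
  · have h5 : 2 ^ n * (((C * 2 ^ t n : ℕ) : ℝ) / u ^ 2) ≤ C := by
      have h6 : 2 ^ n * (((C * 2 ^ t n : ℕ) : ℝ) / u ^ 2) =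
          C * (((n : ℝ) + 1) ^ 2 / ((2 : ℝ) ^ t n * (2 ^ n * (2 ^ n * 2 ^ n)))) := by
        rw [hu, pow_add]
        have : (2 : ℝ) ^ (2 * n) = 2 ^ n * 2 ^ n := by rw [two_mul, pow_add]
        rw [this]
        push_cast
        field_simp
      rw [h6]
      have h7 : ((n : ℝ) + 1) ^ 2 / ((2 : ℝ) ^ t n * (2 ^ n * (2 ^ n * 2 ^ n))) ≤ 1 := by
        rw [div_le_one (by positivity)]
        have h8 : ((n : ℝ) + 1) ^ 2 ≤ 2 ^ n := by
          have : (n + 1) ^ 2 ≤ 2 ^ n := by omega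
          exact_mod_cast this
        have h9 : (1 : ℝ) ≤ 2 ^ t n := one_le_pow₀ (by norm_num)
        have h10 : (1 : ℝ) ≤ 2 ^ n := one_le_pow₀ (by norm_num)
        have h11 : (1 : ℝ) ≤ 2 ^ n * 2 ^ n := by nlinarith
        calc ((n : ℝ) + 1) ^ 2 ≤ 1 * (2 ^ n * 1) := by linarith
          _ ≤ 2 ^ t n * (2 ^ n * (2 ^ n * 2 ^ n)) := by gcongr
      exact mul_le_of_le_one_right (by positivity) h7
    have hr0 : (0 : ℝ) < r := by exact_mod_cast hr1
    have h8 : 2 / (r : ℝ) ≤ 8 * (((n : ℝ) + 1) / 2 ^ n) := by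
      rw [div_le_iff₀ hr0]
      calc (2 : ℝ) = 8 * (((n : ℝ) + 1) / 2 ^ n) * (2 ^ n / (4 * ((n : ℝ) + 1))) := by
            field_simp; norm_num
        _ ≤ 8 * (((n : ℝ) + 1) / 2 ^ n) * r := by
            refine mul_le_mul_of_nonneg_left hrge (by positivity)
    calc (N : ℝ) * (2 / r * (1 + 2 ^ n * (((C * 2 ^ t n : ℕ) : ℝ) / u ^ 2)))
        ≤ N * (8 * (((n : ℝ) + 1) / 2 ^ n) * (1 + C)) := by
          gcongr
      _ = _ := by ring

/-- Fewer than about `n` bits of advice never suffice. -/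
theorem count_main (t : ℕ → ℕ) {N : ℕ → ℕ}
    (hN : Summable fun n : ℕ => (((n : ℝ) + 1) * N n) / 2 ^ n)
    (𝓜 : Set (ℕ → Mach)) (hc : 𝓜.Countable)
    (hM : ∀ M ∈ 𝓜, ∃ C : ℕ, ∀ s, Time (M s) fun n => C * 2 ^ t n) :
    ∀ᵐ A ∂(coins (List Bool)), ∀ M ∈ 𝓜, ∀ᶠ n in atTop, ∀ s < N n,
      ∃ x : List Bool, x.length = n ∧ ¬ (Accepts (M s) A x ↔ x ∉ cntlang t A) := by
  rw [ae_ball_iff hc]
  intro M hMm
  obtain ⟨C, hC⟩ := hM M hMm
  have hae : ∀ᵐ A ∂(coins (List Bool)), ∀ᶠ n in atTop, A ∉ SomeRight t M (N n) n := by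
    refine ae_eventually_notMem ?_
    have hsum : Summable fun n : ℕ => 16 / ((n : ℝ) + 1) ^ 2 +
        8 * (1 + C) * ((((n : ℝ) + 1) * N n) / 2 ^ n) :=
      (summable_rk 16).add (hN.mul_left _)
    have hreal : Summable fun n : ℕ =>
        (coins (List Bool)).real (SomeRight t M (N n) n) := by
      refine Summable.of_norm_bounded_eventually_nat hsum ?_
      filter_upwards [eventually_ge_atTop 12] with n hn
      rw [Real.norm_eq_abs, abs_of_nonneg measureReal_nonneg]
      exact prob_bound' t hC (N n) hn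
    have e : ∀ n, (coins (List Bool)) (SomeRight t M (N n) n) =
        ENNReal.ofReal ((coins (List Bool)).real (SomeRight t M (N n) n)) := by
      intro n
      rw [measureReal_def, ENNReal.ofReal_toReal (measure_ne_top _ _)]
    simp only [e]
    rw [← ENNReal.ofReal_tsum_of_nonneg (fun n => measureReal_nonneg) hreal]
    exact ENNReal.ofReal_ne_top
  filter_upwards [hae] with A hA
  filter_upwards [hA] with n hn s hs
  by_contra hcon
  push Not at hcon
  refine hn ?_
  simp only [SomeRight, Set.mem_iUnion, Finset.mem_range]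
  exact ⟨s, hs, fun x hx => hcon x hx⟩

/-! ### The machine -/

/-- The machine that guesses and checks the right number of witnesses. -/
def cverifier (t : ℕ → ℕ) : Mach := fun x =>
  {C | ∃ S : Finset (List Bool),
    S.card = mean x.length + rk x - (2 ^ x.length + 2 ^ (x.length - 1)) ∧
    (∀ y ∈ S, rk y < 2 ^ chk t x.length * mean x.length) ∧
    C.yes = S.biUnion (fun y => (Finset.range (chk t x.length)).image
      (fun i => code (List.replicate x.length true) y i)) ∧ C.no = ∅}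

lemma witnesses_finite (t : ℕ → ℕ) (A : List Bool → Bool) (n : ℕ) :
    (witnesses t A n).Finite := by
  refine Set.Finite.subset ((Set.finite_lt_nat (2 ^ chk t n * mean n)).preimage
    (f := rk) rk_injective.injOn) fun y hy => hy.1

lemma accepts_cverifier (t : ℕ → ℕ) (A : List Bool → Bool) (x : List Bool) :
    Accepts (cverifier t) A x ↔ x ∈ cntlang t A := by
  classical
  have hfin := witnesses_finite t A x.length
  constructor
  · rintro ⟨C, ⟨S, h1, h2, h3, -⟩, h5, -⟩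
    have hS : (S : Set (List Bool)) ⊆ witnesses t A x.length := by
      intro y hy
      refine ⟨h2 y hy, fun i hi => h5 _ ?_⟩
      rw [h3]
      exact Finset.mem_biUnion.2 ⟨y, hy, Finset.mem_image_of_mem _ (Finset.mem_range.2 hi)⟩
    have h6 := Set.ncard_le_ncard hS hfin
    rw [Set.ncard_coe_finset] at h6
    change mean x.length + rk x ≤ _
    omega
  · intro h
    change mean x.length + rk x ≤ _ at h
    obtain ⟨S, hS, hc⟩ := Set.exists_subset_card_eq (s := witnesses t A x.length)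
      (n := mean x.length + rk x - (2 ^ x.length + 2 ^ (x.length - 1))) (by omega)
    have hSf : S.Finite := hfin.subset hS
    refine ⟨⟨hSf.toFinset.biUnion (fun y => (Finset.range (chk t x.length)).image
      (fun i => code (List.replicate x.length true) y i)), ∅⟩,
      ⟨hSf.toFinset, ?_, fun y hy => ?_, rfl, rfl⟩, fun z hz => ?_, by simp⟩
    · rw [← Set.ncard_eq_toFinset_card S hSf, hc]
    · exact (hS (hSf.mem_toFinset.1 hy)).1
    · obtain ⟨y, hy, hz⟩ := Finset.mem_biUnion.1 hz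
      obtain ⟨i, hi, rfl⟩ := Finset.mem_image.1 hz
      exact (hS (hSf.mem_toFinset.1 hy)).2 i (Finset.mem_range.1 hi)

lemma time_cverifier (t : ℕ → ℕ) :
    Time (cverifier t) fun n => 18 * 4 ^ n * chk t n ^ 2 := by
  classical
  rintro x C ⟨S, h1, h2, h3, h4⟩
  set n := x.length with hn
  have hmean : mean n ≤ 4 ^ n := by
    unfold mean
    exact Nat.div_le_self _ _
  have hrk := rk_lt x
  rw [← hn] at hrk
  have h4n : 4 ^ n = 2 ^ n * 2 ^ n := by rw [← mul_pow]; norm_num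
  have h2n : 1 ≤ 2 ^ n := Nat.one_le_two_pow
  have h2n' : 0 < 2 ^ (n - 1) := by positivity
  have hScard : S.card ≤ 3 * 4 ^ n := by
    rw [pow_succ] at hrk
    have h5 : 2 ^ n ≤ 4 ^ n := by rw [h4n]; exact Nat.le_mul_of_pos_left _ h2n
    omega
  have hlen : ∀ y ∈ S, y.length ≤ chk t n + 2 * n := by
    intro y hy
    by_contra hcon
    push Not at hcon
    have h5 := le_rk y
    have h6 := h2 y hy
    have h7 : 2 ^ (chk t n + 2 * n + 1) ≤ 2 ^ y.length := Nat.pow_le_pow_right (by norm_num) hcon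
    have h8 : 2 ^ chk t n * mean n ≤ 2 ^ (chk t n + 2 * n) := by
      rw [pow_add, pow_mul]
      exact Nat.mul_le_mul_left _ hmean
    have h9 : 1 ≤ 2 ^ (chk t n + 2 * n) := Nat.one_le_two_pow
    rw [pow_succ] at h7
    omega
  rw [Path.len, h3, h4, Finset.union_empty]
  calc ∑ z ∈ S.biUnion (fun y => (Finset.range (chk t n)).image
        (fun i => code (List.replicate n true) y i)), z.length
      ≤ ∑ y ∈ S, ∑ z ∈ (Finset.range (chk t n)).image
        (fun i => code (List.replicate n true) y i), z.length := sum_biUnion_le _ _ _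
    _ ≤ ∑ y ∈ S, ∑ i ∈ Finset.range (chk t n), (code (List.replicate n true) y i).length :=
        Finset.sum_le_sum fun y _ => Finset.sum_image_le_of_nonneg fun _ _ => Nat.zero_le _
    _ ≤ ∑ _y ∈ S, ∑ _i ∈ Finset.range (chk t n), 6 * chk t n := by
        refine Finset.sum_le_sum fun y hy => Finset.sum_le_sum fun i hi => ?_
        have h5 := hlen y hy
        have h6 := Finset.mem_range.1 hi
        rw [length_code, List.length_replicate]
        have h7 : 2 * n + 2 ≤ chk t n := by unfold chk; omega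
        omega
    _ = S.card * (chk t n * (6 * chk t n)) := by
        rw [Finset.sum_const, Finset.sum_const, Finset.card_range, smul_eq_mul, smul_eq_mul]
    _ ≤ 3 * 4 ^ n * (chk t n * (6 * chk t n)) := Nat.mul_le_mul_right _ hScard
    _ = _ := by ring

end Pool.Agent.H51.TA
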