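import Pool.Agent.H17.QM.Defs

/-!
# Nondeterministic oracle machines, their complements and the random oracle: definitions

Also used, from `Pool/Agent/H17/QM/Defs.lean`: the distribution `coins` of a random oracle, the rank
`rk` of a string and the injective code `code x y i`.
-/

set_option autoImplicit false

namespace Pool.Agent.H51.TA

open Pool.Agent.H17.QM

/-- An accepting path of a nondeterministic oracle machine: the queries with the answer yes and the
queries with the answer no. -/
structure Path where
  yes : Finset (List Bool)
  no : Finset (List Bool)

/-- The path exists if the oracle is `A`. -/
def Path.In (C : Path) (A : List Bool → Bool) : Prop :=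
  (∀ z ∈ C.yes, A z = true) ∧ ∀ z ∈ C.no, A z = false

/-- The total length of the queries. -/
def Path.len (C : Path) : ℕ := ∑ z ∈ C.yes ∪ C.no, z.length

/-- A nondeterministic oracle machine: for each input the set of its possible accepting paths. -/
abbrev Mach : Type := List Bool → Set Path

/-- The machine `M` accepts the input `x` with the oracle `A`. -/
def Accepts (M : Mach) (A : List Bool → Bool) (x : List Bool) : Prop := ∃ C ∈ M x, C.In A

/-- The accepting paths of `M` on inputs of length `n` have length at most `t n`. -/
def Time (M : Mach) (t : ℕ → ℕ) : Prop := ∀ x, ∀ C ∈ M x, C.len ≤ t x.length

/-- The number of strings that check a witness for an input of length `n`. -/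
def bits (n : ℕ) : ℕ := 2 * n + 1

/-- The number of possible witnesses for an input of length `n`. -/
noncomputable def wits (n : ℕ) : ℕ := ⌊(2 : ℝ) ^ bits n * Real.log 2⌋₊

/-- The language of the oracle `A`: `x` is a member iff there is a witness `y`, one of the first
`wits |x|` strings, such that the oracle contains all the strings `code x y (p |x| + i)`,
`i < bits |x|`. These strings have length at least `p |x|`. -/
def lang (p : ℕ → ℕ) (A : List Bool → Bool) : Set (List Bool) :=
  {x | ∃ y : List Bool, rk y < wits x.length ∧
    ∀ i < bits x.length, A (code x y (p x.length + i)) = true}

/-- The number of inputs of length `n` on which the machine `M` is right about the complement of the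
language `L`: it accepts `x` iff `x` is not in `L`. -/
noncomputable def right (M : Mach) (A : List Bool → Bool) (L : Set (List Bool)) (n : ℕ) : ℕ :=
  {x : List Bool | x.length = n ∧ (Accepts M A x ↔ x ∉ L)}.ncard

end Pool.Agent.H51.TA
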