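import Pool.Agent.H51.TA.Main
import Pool.Agent.H51.TA.Upper

/-!
# The exponents
-/

set_option autoImplicit false

namespace Pool.Agent.H51.TA

open MeasureTheory Filter Topology Pool.Agent.H17.QM

/-- The length `2 ^ (c n)`. -/
noncomputable def ex (c : ℝ) (n : ℕ) : ℕ := ⌈(2 : ℝ) ^ (c * n)⌉₊

/-- The bound `K (n + 1) ^ K 2 ^ (d n)`. -/
noncomputable def pex (K : ℕ) (d : ℝ) (n : ℕ) : ℕ := ⌊(K : ℝ) * (n + 1) ^ K * 2 ^ (d * n)⌋₊

lemma ex_pos (c : ℝ) (n : ℕ) : 0 < ex c n := Nat.ceil_pos.2 (by positivity)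

lemma le_ex (c : ℝ) (n : ℕ) : (2 : ℝ) ^ (c * n) ≤ ex c n := Nat.le_ceil _

lemma ex_le {c : ℝ} (hc : 0 ≤ c) (n : ℕ) :
    ((bits n * (ex c n + 4 * bits n) : ℕ) : ℝ) ≤ 16 * (n + 1) ^ 2 * 2 ^ (c * n) := by
  have h1 : (ex c n : ℝ) ≤ 2 ^ (c * n) + 1 := (Nat.ceil_lt_add_one (by positivity)).le
  have h2 : (1 : ℝ) ≤ 2 ^ (c * n) := Real.one_le_rpow (by norm_num) (by positivity)
  have h0 : (0 : ℝ) ≤ n := Nat.cast_nonneg _
  set P : ℝ := 2 ^ (c * n) with hP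
  have h3 : (ex c n : ℝ) + 4 * (2 * n + 1) ≤ (8 * n + 6) * P := by nlinarith
  unfold bits
  push_cast
  calc (2 * (n : ℝ) + 1) * ((ex c n : ℝ) + 4 * (2 * n + 1))
      ≤ (2 * n + 1) * ((8 * n + 6) * P) := mul_le_mul_of_nonneg_left h3 (by linarith)
    _ ≤ 16 * (n + 1) ^ 2 * P := by
        have : (2 * (n : ℝ) + 1) * (8 * n + 6) ≤ 16 * (n + 1) ^ 2 := by nlinarith
        calc (2 * (n : ℝ) + 1) * ((8 * n + 6) * P) = (2 * (n : ℝ) + 1) * (8 * n + 6) * P := by ring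
          _ ≤ _ := mul_le_mul_of_nonneg_right this (by linarith)

/-- The size of the blocks. -/
noncomputable def jj (b : ℝ) (n : ℕ) : ℕ := ⌊(1 - b) * n⌋₊

lemma jj_le {b : ℝ} (h0 : 0 ≤ b) (h1 : b ≤ 1) (n : ℕ) : jj b n ≤ n := by
  have hn : (0 : ℝ) ≤ n := Nat.cast_nonneg _
  have h2 : (jj b n : ℝ) ≤ (1 - b) * n := Nat.floor_le (mul_nonneg (by linarith) hn)
  have h3 : (jj b n : ℝ) ≤ n := by nlinarith
  exact_mod_cast h3

lemma time_jj {b c d : ℝ} (hc : 0 ≤ c) (h1 : b ≤ 1) (h : c + 1 ≤ b + d) (n : ℕ) :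
    ((2 ^ jj b n * (bits n * (ex c n + 4 * bits n)) : ℕ) : ℝ) ≤
      16 * (n + 1) ^ 2 * 2 ^ (d * n) := by
  have hn : (0 : ℝ) ≤ n := Nat.cast_nonneg _
  have h2 : (jj b n : ℝ) ≤ (1 - b) * n := Nat.floor_le (mul_nonneg (by linarith) hn)
  have h3 : ((2 ^ jj b n : ℕ) : ℝ) ≤ 2 ^ ((1 - b) * n) := by
    push_cast
    rw [← Real.rpow_natCast]
    exact Real.rpow_le_rpow_of_exponent_le (by norm_num) h2
  have h4 := ex_le hc n
  rw [Nat.cast_mul]
  calc ((2 ^ jj b n : ℕ) : ℝ) * ((bits n * (ex c n + 4 * bits n) : ℕ) : ℝ)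
      ≤ 2 ^ ((1 - b) * n) * (16 * (n + 1) ^ 2 * 2 ^ (c * n)) :=
        mul_le_mul h3 h4 (Nat.cast_nonneg _) (by positivity)
    _ = 16 * (n + 1) ^ 2 * (2 ^ ((1 - b) * n) * 2 ^ (c * n)) := by ring
    _ = 16 * (n + 1) ^ 2 * 2 ^ ((1 - b) * n + c * n) := by rw [Real.rpow_add (by norm_num)]
    _ ≤ 16 * (n + 1) ^ 2 * 2 ^ (d * n) := by
        refine mul_le_mul_of_nonneg_left ?_ (by positivity)
        exact Real.rpow_le_rpow_of_exponent_le (by norm_num) (by nlinarith)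

lemma adv_jj {b : ℝ} (h0 : 0 ≤ b) (h1 : b ≤ 1) (n : ℕ) :
    (2 ^ jj b n + 1) ^ 2 ^ (n - jj b n) ≤ 2 ^ ⌊2 * ((n : ℝ) + 1) * 2 ^ (b * n)⌋₊ := by
  have hj := jj_le h0 h1 n
  have hn : (0 : ℝ) ≤ n := Nat.cast_nonneg _
  have h2 : 2 ^ jj b n + 1 ≤ 2 ^ (n + 1) := by
    have h3 : 2 ^ jj b n ≤ 2 ^ n := Nat.pow_le_pow_right (by norm_num) hj
    have h4 : 1 ≤ 2 ^ n := Nat.one_le_two_pow
    rw [pow_succ]
    omega
  calc (2 ^ jj b n + 1) ^ 2 ^ (n - jj b n) ≤ (2 ^ (n + 1)) ^ 2 ^ (n - jj b n) :=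
        Nat.pow_le_pow_left h2 _
    _ = 2 ^ ((n + 1) * 2 ^ (n - jj b n)) := by rw [← pow_mul]
    _ ≤ _ := by
        refine Nat.pow_le_pow_right (by norm_num) (Nat.le_floor ?_)
        have h3 : (1 - b) * n < (jj b n : ℝ) + 1 := Nat.lt_floor_add_one _
        have h4 : ((n - jj b n : ℕ) : ℝ) ≤ b * n + 1 := by
          rw [Nat.cast_sub hj]
          nlinarith
        have h5 : ((2 : ℝ) ^ (n - jj b n)) ≤ 2 * 2 ^ (b * n) := by
          rw [← Real.rpow_natCast]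
          calc (2 : ℝ) ^ (((n - jj b n : ℕ) : ℝ)) ≤ 2 ^ (b * n + 1) :=
                Real.rpow_le_rpow_of_exponent_le (by norm_num) h4
            _ = 2 * 2 ^ (b * n) := by
                rw [Real.rpow_add (by norm_num), Real.rpow_one]; ring
        push_cast
        calc ((n : ℝ) + 1) * 2 ^ (n - jj b n) ≤ (n + 1) * (2 * 2 ^ (b * n)) :=
              mul_le_mul_of_nonneg_left h5 (by linarith)
          _ = _ := by ring

lemma tendsto_poly (k : ℕ) {δ : ℝ} (hδ : 0 < δ) :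
    Tendsto (fun n : ℕ => ((n : ℝ) + 1) ^ k * 2 ^ (-(δ * n))) atTop (𝓝 0) := by
  have hr0 : (0 : ℝ) < 2 ^ (-δ) := by positivity
  have hr1 : (2 : ℝ) ^ (-δ) < 1 := Real.rpow_lt_one_of_one_lt_of_neg (by norm_num) (by linarith)
  have h1 := tendsto_pow_const_mul_const_pow_of_abs_lt_one k
    (r := (2 : ℝ) ^ (-δ)) (by rw [abs_of_pos hr0]; exact hr1)
  have h2 := (tendsto_add_atTop_iff_nat 1).2 h1
  have h3 := h2.mul_const ((2 : ℝ) ^ δ)
  rw [zero_mul] at h3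
  refine h3.congr fun n => ?_
  push_cast
  rw [← Real.rpow_natCast ((2 : ℝ) ^ (-δ)), ← Real.rpow_mul (by norm_num), mul_assoc,
    ← Real.rpow_add (by norm_num)]
  congr 2
  push_cast
  ring

lemma tendsto_exp {K : ℕ} {b c d g : ℝ} (hb : 0 ≤ b) (h1 : b + 3 * g < 1)
    (h2 : b + d + 3 * g < c + 1) :
    Tendsto (fun n : ℕ => ((pex K d n : ℝ) / ex c n + 1) *
      Real.log (((n : ℝ) + 2) * ((2 ^ pex K b n : ℕ) + 1)) /
      (((2 : ℝ) ^ (-(g * n))) ^ 3 * 2 ^ n)) atTop (𝓝 0) := by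
  set m : ℝ := max (d - c) 0 with hm
  have hm0 : 0 ≤ m := le_max_right _ _
  have hmd : d - c ≤ m := le_max_left _ _
  set δ : ℝ := 1 - (b + m + 3 * g) with hδ
  have hδ0 : 0 < δ := by
    rcases le_total (d - c) 0 with h | h
    · rw [hδ, hm, max_eq_right h]; linarith
    · rw [hδ, hm, max_eq_left h]; linarith
  have hlim := (tendsto_poly (2 * K + 1) hδ0).const_mul (((K : ℝ) + 1) * (K + 3))
  rw [mul_zero] at hlim
  refine squeeze_zero (fun n => ?_) (fun n => ?_) hlim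
  · have : (1 : ℝ) ≤ ((n : ℝ) + 2) * ((2 ^ pex K b n : ℕ) + 1) := by
      have hn : (0 : ℝ) ≤ n := Nat.cast_nonneg _
      have h3 : (0 : ℝ) ≤ ((2 ^ pex K b n : ℕ) : ℝ) := Nat.cast_nonneg _
      nlinarith
    have := Real.log_nonneg this
    positivity
  · have hn : (0 : ℝ) ≤ n := Nat.cast_nonneg _
    have hn1 : (1 : ℝ) ≤ (n : ℝ) + 1 := by linarith
    have hK : (0 : ℝ) ≤ K := Nat.cast_nonneg _
    have hnK : (1 : ℝ) ≤ ((n : ℝ) + 1) ^ K := one_le_pow₀ hn1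
    have hmn : (1 : ℝ) ≤ 2 ^ (m * n) := Real.one_le_rpow (by norm_num) (by positivity)
    have hbn : (1 : ℝ) ≤ 2 ^ (b * n) := Real.one_le_rpow (by norm_num) (by positivity)
    -- the time
    have e1 : (pex K d n : ℝ) / ex c n + 1 ≤ ((K : ℝ) + 1) * ((n : ℝ) + 1) ^ K * 2 ^ (m * n) := by
      have e2 : (pex K d n : ℝ) ≤ (K : ℝ) * (n + 1) ^ K * 2 ^ (d * n) :=
        Nat.floor_le (by positivity)
      have e3 : (pex K d n : ℝ) / ex c n ≤
          (K : ℝ) * (n + 1) ^ K * 2 ^ (d * n) / 2 ^ (c * n) :=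
        div_le_div₀ (by positivity) e2 (by positivity) (le_ex c n)
      have e4 : (2 : ℝ) ^ (d * n) / 2 ^ (c * n) ≤ 2 ^ (m * n) := by
        rw [← Real.rpow_sub (by norm_num)]
        exact Real.rpow_le_rpow_of_exponent_le (by norm_num) (by nlinarith)
      have e5 : (pex K d n : ℝ) / ex c n ≤ (K : ℝ) * (n + 1) ^ K * 2 ^ (m * n) := by
        refine e3.trans ?_
        rw [mul_div_assoc]
        exact mul_le_mul_of_nonneg_left e4 (by positivity)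
      have e6 : (1 : ℝ) ≤ ((n : ℝ) + 1) ^ K * 2 ^ (m * n) := by nlinarith
      linarith
    -- the advice
    have e7 : Real.log (((n : ℝ) + 2) * ((2 ^ pex K b n : ℕ) + 1)) ≤
        ((K : ℝ) + 3) * ((n : ℝ) + 1) ^ (K + 1) * 2 ^ (b * n) := by
      have f1 : Real.log ((n : ℝ) + 2) ≤ n + 1 := by
        have := Real.log_le_sub_one_of_pos (show (0 : ℝ) < (n : ℝ) + 2 by linarith)
        linarith
      have f2 : (((2 ^ pex K b n : ℕ) : ℝ) + 1) ≤ 2 ^ (pex K b n + 1) := by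
        push_cast
        have : (1 : ℝ) ≤ 2 ^ pex K b n := one_le_pow₀ (by norm_num)
        rw [pow_succ]
        linarith
      have f3 : Real.log (((2 ^ pex K b n : ℕ) : ℝ) + 1) ≤ pex K b n + 1 := by
        refine (Real.log_le_log (by positivity) f2).trans ?_
        rw [Real.log_pow]
        have f4 : Real.log 2 ≤ 1 := by
          have := Real.log_le_sub_one_of_pos (show (0 : ℝ) < 2 by norm_num)
          linarith
        push_cast
        have f5 : (0 : ℝ) ≤ (pex K b n : ℝ) + 1 := by positivity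
        nlinarith
      have f6 : (pex K b n : ℝ) ≤ (K : ℝ) * (n + 1) ^ K * 2 ^ (b * n) :=
        Nat.floor_le (by positivity)
      rw [Real.log_mul (by linarith) (by positivity)]
      have f7 : (n : ℝ) + 1 ≤ ((n : ℝ) + 1) ^ (K + 1) * 2 ^ (b * n) := by
        rw [pow_succ]
        have : (1 : ℝ) ≤ ((n : ℝ) + 1) ^ K * 2 ^ (b * n) := by nlinarith
        nlinarith
      have f8 : ((n : ℝ) + 1) ^ K * 2 ^ (b * n) ≤ ((n : ℝ) + 1) ^ (K + 1) * 2 ^ (b * n) :=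
        mul_le_mul_of_nonneg_right (pow_le_pow_right₀ hn1 (by omega)) (by positivity)
      have f9 : (1 : ℝ) ≤ ((n : ℝ) + 1) ^ (K + 1) * 2 ^ (b * n) := by linarith
      nlinarith
    have e8 : (((2 : ℝ) ^ (-(g * n))) ^ 3 * 2 ^ n) = 2 ^ ((1 - 3 * g) * n) := by
      rw [← Real.rpow_natCast, ← Real.rpow_natCast, ← Real.rpow_mul (by norm_num),
        ← Real.rpow_add (by norm_num)]
      congr 1
      push_cast
      ring
    have hlog0 : 0 ≤ Real.log (((n : ℝ) + 2) * ((2 ^ pex K b n : ℕ) + 1)) := by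
      refine Real.log_nonneg ?_
      have h3 : (0 : ℝ) ≤ ((2 ^ pex K b n : ℕ) : ℝ) := Nat.cast_nonneg _
      nlinarith
    rw [e8]
    calc ((pex K d n : ℝ) / ex c n + 1) * Real.log (((n : ℝ) + 2) * ((2 ^ pex K b n : ℕ) + 1)) /
          2 ^ ((1 - 3 * g) * n)
        ≤ (((K : ℝ) + 1) * ((n : ℝ) + 1) ^ K * 2 ^ (m * n)) *
            (((K : ℝ) + 3) * ((n : ℝ) + 1) ^ (K + 1) * 2 ^ (b * n)) / 2 ^ ((1 - 3 * g) * n) := by
          refine div_le_div_of_nonneg_right ?_ (by positivity)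
          exact mul_le_mul e1 e7 hlog0 (by positivity)
      _ = ((K : ℝ) + 1) * (K + 3) * (((n : ℝ) + 1) ^ (2 * K + 1) *
            (2 ^ (m * n) * 2 ^ (b * n) / 2 ^ ((1 - 3 * g) * n))) := by
          rw [show 2 * K + 1 = K + (K + 1) by ring, pow_add]
          ring
      _ = ((K : ℝ) + 1) * (K + 3) * (((n : ℝ) + 1) ^ (2 * K + 1) * 2 ^ (-(δ * n))) := by
          rw [← Real.rpow_add (by norm_num), ← Real.rpow_sub (by norm_num)]
          congr 3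
          rw [hδ]
          ring

/-- The lower bound with exponents. -/
theorem lower_exp {b c d g : ℝ} (hb : 0 ≤ b) (hg : 0 < g) (h1 : b + 3 * g < 1)
    (h2 : b + d + 3 * g < c + 1) (𝓜 : Set (ℕ → Mach)) (hc : 𝓜.Countable) :
    ∀ᵐ A ∂(coins (List Bool)), ∀ M ∈ 𝓜, ∀ K : ℕ, (∀ s, Time (M s) (pex K d)) →
      ∀ᶠ n in atTop, ∀ s < 2 ^ pex K b n,
        (right (M s) A (lang (ex c) A) n : ℝ) < (1 / 2 + 2 ^ (-(g * n))) * 2 ^ n := by
  have h3 : ∀ᵐ A ∂(coins (List Bool)), ∀ K : ℕ, ∀ M ∈ {M ∈ 𝓜 | ∀ s, Time (M s) (pex K d)},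
      ∀ᶠ n in atTop, ∀ s < 2 ^ pex K b n,
        (right (M s) A (lang (ex c) A) n : ℝ) < (1 / 2 + 2 ^ (-(g * n))) * 2 ^ n := by
    rw [ae_all_iff]
    intro K
    refine lower_main (T := pex K d) (N := fun n => 2 ^ pex K b n)
      (η := fun n => (2 : ℝ) ^ (-(g * n))) (ex_pos c) (fun n => by positivity) (fun n => ?_)
      (tendsto_exp hb h1 h2) _ (hc.mono fun M hM => hM.1) fun M hM => ⟨1, fun s => ?_⟩
    · refine Real.rpow_le_one_of_one_le_of_nonpos (by norm_num) ?_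
      have hn : (0 : ℝ) ≤ n := Nat.cast_nonneg _
      have := mul_nonneg hg.le hn
      linarith
    · simpa using hM.2 s
  filter_upwards [h3] with A hA M hM K hT
  exact hA K M ⟨hM, hT⟩

end Pool.Agent.H51.TA
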