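import Mathlib

/-!
# Hiding a set of blocks: products of functions of single hidden blocks; colourings
-/

set_option autoImplicit false

namespace Pool.Agent.H51.TA

open Finset

section Mix

variable {X Bl : Type*} [Fintype X] [DecidableEq X] [Fintype Bl] [DecidableEq Bl]

/-- Replace the blocks in `H`. -/
def mix (H : X → Prop) [DecidablePred H] (β γ : X → Bl) : X → Bl :=
  fun x => if H x then γ x else β x

omit [Fintype X] [DecidableEq X] [Fintype Bl] [DecidableEq Bl] in
lemma mix_involutive (H : X → Prop) [DecidablePred H] :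
    Function.Involutive fun p : (X → Bl) × (X → Bl) => (mix H p.1 p.2, mix H p.2 p.1) := by
  rintro ⟨β, γ⟩
  refine Prod.ext ?_ ?_
  · funext x
    simp only [mix]
    split_ifs <;> rfl
  · funext x
    simp only [mix]
    split_ifs <;> rfl

omit [DecidableEq Bl] in
lemma sum_mix (H : X → Prop) [DecidablePred H] (F : (X → Bl) → ℝ) :
    (Fintype.card (X → Bl) : ℝ) * ∑ β, F β = ∑ β, ∑ γ, F (mix H β γ) := by
  have h1 : ∑ β, ∑ γ, F (mix H β γ) = ∑ p : (X → Bl) × (X → Bl), F (mix H p.1 p.2) := by
    rw [Fintype.sum_prod_type]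
  have h2 : ∑ p : (X → Bl) × (X → Bl), F (mix H p.1 p.2) =
      ∑ p : (X → Bl) × (X → Bl), F p.1 := by
    rw [← Equiv.sum_comp ((mix_involutive (X := X) (Bl := Bl) H).toPerm _)
      (fun p => F p.1)]
    rfl
  rw [h1, h2, Fintype.sum_prod_type]
  simp only [Finset.sum_const, Finset.card_univ, nsmul_eq_mul]
  rw [← Finset.mul_sum]

/-- A product of functions, one for each hidden block, that depend only on this block and the
revealed blocks and have mean at most one in this block, has mean at most one. -/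
theorem sum_prod_le (H : X → Prop) [DecidablePred H] (g : X → (X → Bl) → ℝ)
    (hg0 : ∀ x β, 0 ≤ g x β)
    (hloc : ∀ x, H x → ∀ β β' : X → Bl, (∀ y, ¬ H y → β y = β' y) → β x = β' x → g x β = g x β')
    (hle : ∀ x, H x → ∀ β : X → Bl, ∑ α, g x (Function.update β x α) ≤ Fintype.card Bl)
    (hone : ∀ x, ¬ H x → ∀ β, g x β = 1) :
    ∑ β, ∏ x, g x β ≤ (Fintype.card Bl : ℝ) ^ Fintype.card X := by
  rcases isEmpty_or_nonempty (X → Bl) with hE | hE
  · simp only [Finset.univ_eq_empty, Finset.sum_empty]
    positivity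
  have hc : (0 : ℝ) < Fintype.card (X → Bl) := by exact_mod_cast Fintype.card_pos
  have h1 := sum_mix H fun β => ∏ x, g x β
  have h2 : ∀ β : X → Bl, ∑ γ, ∏ x, g x (mix H β γ) ≤ (Fintype.card Bl : ℝ) ^ Fintype.card X := by
    intro β
    have h3 : ∀ γ : X → Bl, ∏ x, g x (mix H β γ) =
        ∏ x, (if H x then g x (Function.update β x (γ x)) else 1) := by
      intro γ
      refine Finset.prod_congr rfl fun x _ => ?_
      split_ifs with hx
      · refine hloc x hx _ _ (fun y hy => ?_) ?_
        · have : y ≠ x := fun h => hy (h ▸ hx)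
          rw [Function.update_of_ne this, mix, if_neg hy]
        · rw [Function.update_self, mix, if_pos hx]
      · exact hone x hx _
    simp only [h3]
    have h4 : ∑ γ : X → Bl, ∏ x, (if H x then g x (Function.update β x (γ x)) else 1) =
        ∏ x, ∑ α, (if H x then g x (Function.update β x α) else 1) := by
      rw [Finset.prod_univ_sum, Fintype.piFinset_univ]
    rw [h4]
    have h5 : ∏ x : X, ∑ α : Bl, (if H x then g x (Function.update β x α) else 1) ≤
        ∏ _x : X, (Fintype.card Bl : ℝ) := by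
      refine Finset.prod_le_prod (fun x _ => Finset.sum_nonneg fun α _ => ?_) fun x _ => ?_
      · split_ifs
        · exact hg0 _ _
        · norm_num
      · split_ifs with hx
        · exact hle x hx β
        · simp
    simpa using h5
  have h3 : (Fintype.card (X → Bl) : ℝ) * ∑ β, ∏ x, g x β ≤
      Fintype.card (X → Bl) * (Fintype.card Bl : ℝ) ^ Fintype.card X := by
    rw [h1]
    calc ∑ β : X → Bl, ∑ γ : X → Bl, ∏ x, g x (mix H β γ)
        ≤ ∑ _β : X → Bl, (Fintype.card Bl : ℝ) ^ Fintype.card X :=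
          Finset.sum_le_sum fun β _ => h2 β
      _ = _ := by simp
  exact le_of_mul_le_mul_left h3 hc

end Mix

/-! ### Jensen's inequality -/

lemma exp_mean_le {C : Type*} [Fintype C] [Nonempty C] (y : C → ℝ) :
    Real.exp ((∑ χ, y χ) / Fintype.card C) ≤ (∑ χ, Real.exp (y χ)) / Fintype.card C := by
  have hc : (0 : ℝ) < Fintype.card C := by exact_mod_cast Fintype.card_pos
  have h := convexOn_exp.map_sum_le (t := (Finset.univ : Finset C))
    (w := fun _ => 1 / (Fintype.card C : ℝ)) (p := y) (fun _ _ => by positivity)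
    (by rw [Finset.sum_const, Finset.card_univ, nsmul_eq_mul]; field_simp)
    (fun _ _ => Set.mem_univ _)
  simp only [smul_eq_mul, ← Finset.mul_sum] at h
  calc Real.exp ((∑ χ, y χ) / Fintype.card C)
      = Real.exp (1 / (Fintype.card C : ℝ) * ∑ χ, y χ) := by congr 1; ring
    _ ≤ 1 / (Fintype.card C : ℝ) * ∑ χ, Real.exp (y χ) := h
    _ = _ := by ring

/-! ### Colourings -/

section Colour

variable {X : Type*} [Fintype X] [DecidableEq X]

/-- The colourings with `K + 1` colours that hide `x` and reveal `B`: their proportion. -/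
lemma card_hide (K : ℕ) {x : X} {B : Finset X} (hx : x ∉ B) {k : ℕ} (hB : B.card ≤ k) :
    (1 / ((K : ℝ) + 1)) * (1 - k / ((K : ℝ) + 1)) * (K + 1) ^ Fintype.card X ≤
      ((univ.filter fun χ : X → Fin (K + 1) => χ x = 0 ∧ ∀ y ∈ B, χ y ≠ 0).card : ℝ) := by
  have e : (univ.filter fun χ : X → Fin (K + 1) => χ x = 0 ∧ ∀ y ∈ B, χ y ≠ 0) =
      Fintype.piFinset fun y => if y = x then ({0} : Finset (Fin (K + 1)))
        else if y ∈ B then univ.erase 0 else univ := by
    ext χ
    simp only [Finset.mem_filter, Finset.mem_univ, true_and, Fintype.mem_piFinset]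
    constructor
    · rintro ⟨h1, h2⟩ y
      split_ifs with h3 h4
      · simp [h3, h1]
      · simpa using h2 y h4
      · simp
    · intro h
      refine ⟨by simpa using h x, fun y hy => ?_⟩
      have h1 := h y
      have h2 : y ≠ x := fun h3 => hx (h3 ▸ hy)
      rw [if_neg h2, if_pos hy] at h1
      simpa using h1
  rw [e, Fintype.card_piFinset]
  push_cast
  have h1 : ∀ y : X, (((if y = x then ({0} : Finset (Fin (K + 1)))
        else if y ∈ B then univ.erase 0 else univ).card : ℕ) : ℝ) =
      ((K : ℝ) + 1) * ((if y = x then 1 / ((K : ℝ) + 1) else 1) *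
        (if y ∈ B then 1 - 1 / ((K : ℝ) + 1) else 1)) := by
    intro y
    by_cases h3 : y = x
    · have h4 : y ∉ B := h3 ▸ hx
      simp only [h3, if_true, if_neg (h3 ▸ h4)]
      simp
      field_simp
    · by_cases h4 : y ∈ B
      · rw [if_neg h3, if_pos h4, if_neg h3, if_pos h4, Finset.card_erase_of_mem (Finset.mem_univ _)]
        simp
        field_simp
        ring
      · simp [h3, h4]
  rw [Finset.prod_congr rfl fun y _ => h1 y, Finset.prod_mul_distrib, Finset.prod_mul_distrib,
    Finset.prod_const, Finset.card_univ, Finset.prod_ite_eq' Finset.univ x]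
  rw [if_pos (Finset.mem_univ x), Finset.prod_ite_mem, Finset.univ_inter, Finset.prod_const]
  have h2 : 1 - (k : ℝ) / ((K : ℝ) + 1) ≤ (1 - 1 / ((K : ℝ) + 1)) ^ B.card := by
    have h3 : (1 : ℝ) / ((K : ℝ) + 1) ≤ 1 := by
      rw [div_le_one (by positivity)]
      have : (0 : ℝ) ≤ K := Nat.cast_nonneg _
      linarith
    have h4 := one_add_mul_le_pow (a := -(1 / ((K : ℝ) + 1))) (by linarith) B.card
    have h5 : (B.card : ℝ) ≤ k := by exact_mod_cast hB
    have h6 : (B.card : ℝ) * (1 / ((K : ℝ) + 1)) ≤ k * (1 / ((K : ℝ) + 1)) :=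
      mul_le_mul_of_nonneg_right h5 (by positivity)
    calc 1 - (k : ℝ) / ((K : ℝ) + 1) ≤ 1 + B.card * -(1 / ((K : ℝ) + 1)) := by
          have : (k : ℝ) / ((K : ℝ) + 1) = k * (1 / ((K : ℝ) + 1)) := by ring
          rw [this]; linarith
      _ ≤ _ := h4
      _ = _ := by ring
  calc (1 / ((K : ℝ) + 1)) * (1 - k / ((K : ℝ) + 1)) * (K + 1) ^ Fintype.card X
      = (K + 1) ^ Fintype.card X * ((1 / ((K : ℝ) + 1)) * (1 - k / ((K : ℝ) + 1))) := by ring
    _ ≤ _ := by gcongr

lemma card_hidden (K : ℕ) (x : X) :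
    ((univ.filter fun χ : X → Fin (K + 1) => χ x = 0).card : ℝ) =
      (1 / ((K : ℝ) + 1)) * (K + 1) ^ Fintype.card X := by
  have e : (univ.filter fun χ : X → Fin (K + 1) => χ x = 0) =
      Fintype.piFinset fun y => if y = x then ({0} : Finset (Fin (K + 1))) else univ := by
    ext χ
    simp only [Finset.mem_filter, Finset.mem_univ, true_and, Fintype.mem_piFinset]
    constructor
    · intro h1 y
      split_ifs with h3
      · simp [h3, h1]
      · simp
    · intro h
      simpa using h x
  rw [e, Fintype.card_piFinset]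
  push_cast
  have h1 : ∀ y : X, (((if y = x then ({0} : Finset (Fin (K + 1))) else univ).card : ℕ) : ℝ) =
      ((K : ℝ) + 1) * (if y = x then 1 / ((K : ℝ) + 1) else 1) := by
    intro y
    by_cases h3 : y = x
    · simp only [h3, if_true]
      simp
      field_simp
    · simp [h3]
  rw [Finset.prod_congr rfl fun y _ => h1 y, Finset.prod_mul_distrib,
    Finset.prod_const, Finset.card_univ, Finset.prod_ite_eq' Finset.univ x]
  rw [if_pos (Finset.mem_univ x)]
  ring

end Colour

end Pool.Agent.H51.TA
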