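import Pool.Agent.H51.TA.Block
import Pool.Agent.H51.TA.Mix

/-!
# The finite theorem: certificates that look at few blocks
-/

set_option autoImplicit false

namespace Pool.Agent.H51.TA

open Finset Pool.Agent.H17.QM

/-- The numerical estimate. -/
lemma bracket_le {η N a e κ : ℝ} (h0 : 0 < η) (h1 : η ≤ 1) (ha0 : 0 ≤ a) (haN : a ≤ N)
    (he0 : 0 ≤ e) (heN : e ≤ N) (hκ0 : 0 ≤ κ) (hκ : κ ≤ η / 4) (hae : η * N ≤ a - e) :
    η ^ 2 * N / 80 ≤ (1 - κ) * Real.log (1 + η / 40) * a +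
      Real.log (1 - (η / 40 + (η / 40) ^ 2)) * e := by
  set t : ℝ := η / 40 with ht
  have ht0 : 0 < t := by rw [ht]; positivity
  have ht1 : t ≤ 1 / 40 := by rw [ht]; linarith
  have hN : 0 ≤ N := ha0.trans haN
  have hl1 : t - t ^ 2 ≤ Real.log (1 + t) := by
    have h2 := Real.one_sub_inv_le_log_of_pos (show 0 < 1 + t by linarith)
    refine le_trans ?_ h2
    rw [← sub_nonneg]
    have : 1 - (1 + t)⁻¹ - (t - t ^ 2) = t ^ 3 / (1 + t) := by field_simp; ring
    rw [this]
    positivity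
  have hl2 : -(t + 9 * t ^ 2) ≤ Real.log (1 - (t + t ^ 2)) := by
    have h3 : 0 < 1 - (t + t ^ 2) := by nlinarith
    have h2 := Real.one_sub_inv_le_log_of_pos h3
    refine le_trans ?_ h2
    rw [← sub_nonneg]
    have : 1 - (1 - (t + t ^ 2))⁻¹ - -(t + 9 * t ^ 2) =
        ((t + 9 * t ^ 2) * (1 - (t + t ^ 2)) - (t + t ^ 2)) / (1 - (t + t ^ 2)) := by
      have h4 := h3.ne'
      generalize hz : 1 - (t + t ^ 2) = z at h4
      field_simp
      rw [← hz]
      ring
    rw [this]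
    refine div_nonneg ?_ h3.le
    have : (t + 9 * t ^ 2) * (1 - (t + t ^ 2)) - (t + t ^ 2) =
        t ^ 2 * (7 - 10 * t - 9 * t ^ 2) := by ring
    rw [this]
    have : 0 ≤ 7 - 10 * t - 9 * t ^ 2 := by nlinarith
    positivity
  have h4 : (1 - κ) * (t - t ^ 2) * a ≤ (1 - κ) * Real.log (1 + t) * a := by
    have : 0 ≤ 1 - κ := by linarith
    gcongr
  have h5 : -(t + 9 * t ^ 2) * e ≤ Real.log (1 - (t + t ^ 2)) * e := by gcongr
  have h6 : t * η * N / 2 ≤ (1 - κ) * (t - t ^ 2) * a + -(t + 9 * t ^ 2) * e := by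
    have e1 : (1 - κ) * (t - t ^ 2) * a + -(t + 9 * t ^ 2) * e =
        t * (a - e) - (t ^ 2 + κ * t) * a + κ * t ^ 2 * a - 9 * t ^ 2 * e := by ring
    rw [e1]
    have h7 : t * (η * N) ≤ t * (a - e) := mul_le_mul_of_nonneg_left hae ht0.le
    have h8 : (t ^ 2 + κ * t) * a ≤ (t ^ 2 + κ * t) * N := by gcongr
    have h9 : 9 * t ^ 2 * e ≤ 9 * t ^ 2 * N := by gcongr
    have h10 : 0 ≤ κ * t ^ 2 * a := by positivity
    have h11 : κ * t * N ≤ η / 4 * t * N := by gcongr
    have h12 : 10 * t ^ 2 * N = η / 4 * t * N := by rw [ht]; ring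
    nlinarith
  have h7 : η ^ 2 * N / 80 = t * η * N / 2 := by rw [ht]; ring
  rw [h7]
  linarith

section Finite

variable {X Y Z : Type*} [Fintype X] [DecidableEq X] [Fintype Y] [DecidableEq Y] [Fintype Z]
  [DecidableEq Z] (o : Z) (𝒟 : X → Finset X → (X → Y → Z) → Prop)

/-- Acceptance. -/
def Acc (x : X) (β : X → Y → Z) : Prop := ∃ B, 𝒟 x B β

/-- Acceptance by a certificate that does not look at hidden blocks other than `x`. -/
def Vis {K : ℕ} (χ : X → Fin (K + 1)) (x : X) (β : X → Y → Z) : Prop :=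
  ∃ B, 𝒟 x B β ∧ ∀ y ∈ B, χ y ≠ 0

open Classical in
/-- The factors. -/
noncomputable def fac {K : ℕ} (t t' : ℝ) (χ : X → Fin (K + 1)) (x : X) (β : X → Y → Z) : ℝ :=
  if χ x = 0 then (if Vis 𝒟 χ x β then (if β x ∈ wf o then 1 + t else 1 - t') else 1) else 1

open Classical in
/-- Accepted blocks without witness. -/
noncomputable def good (β : X → Y → Z) : ℕ := (univ.filter fun x => Acc 𝒟 x β ∧ β x ∈ wf o).card

open Classical in
/-- Accepted blocks with witness. -/
noncomputable def fail (β : X → Y → Z) : ℕ := (univ.filter fun x => Acc 𝒟 x β ∧ β x ∉ wf o).card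

variable {o 𝒟}

lemma sum_fac_le (hK : 2 ≤ Fintype.card Z) {k : ℕ} {t t' : ℝ} (ht : 0 ≤ t) (ht' : t' ≤ 1)
    (ht0' : 0 ≤ t')
    (hloc : ∀ x B β β', 𝒟 x B β → (∀ y ∈ B, β y = β' y) → β x = β' x → 𝒟 x B β')
    (hpl : ∀ x B β, 𝒟 x B β → β x ∈ wf o → ∃ D : Finset Y, D.card ≤ k ∧
      ∀ W : Finset Y, Disjoint W D → 𝒟 x B (Function.update β x (plant o (β x) W)))
    (hR : t ≤ t' * ((1 + wq Z) ^ Fintype.card Y / (1 + wq Z) ^ k - 1))
    {K : ℕ} (χ : X → Fin (K + 1)) :
    ∑ β, ∏ x, fac o 𝒟 t t' χ x β ≤ (Fintype.card (Y → Z) : ℝ) ^ Fintype.card X := by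
  classical
  refine sum_prod_le (fun x => χ x = 0) (fac o 𝒟 t t' χ) ?_ ?_ ?_ ?_
  · intro x β
    rw [fac]
    split_ifs <;> linarith
  · intro x hx β β' h1 h2
    have h3 : Vis 𝒟 χ x β ↔ Vis 𝒟 χ x β' := by
      constructor
      · rintro ⟨B, hB, h4⟩
        exact ⟨B, hloc x B β β' hB (fun y hy => h1 y (h4 y hy)) h2, h4⟩
      · rintro ⟨B, hB, h4⟩
        exact ⟨B, hloc x B β' β hB (fun y hy => (h1 y (h4 y hy)).symm) h2.symm, h4⟩
    simp only [fac, h3, h2]
  · intro x hx β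
    set V : (Y → Z) → Prop := fun α => Vis 𝒟 χ x (Function.update β x α) with hV
    have h1 := block_ineq o hK V (k := k) (fun g hg hVg => by
      obtain ⟨B, hB, h4⟩ := hVg
      obtain ⟨D, hD, h5⟩ := hpl x B _ hB (by rwa [Function.update_self])
      refine ⟨D, hD, fun W hW => ⟨B, ?_, h4⟩⟩
      have h6 := h5 W hW
      rwa [Function.update_self, Function.update_idem] at h6)
    have h2 : ∀ α, fac o 𝒟 t t' χ x (Function.update β x α) =
        1 + t * (if V α ∧ α ∈ wf o then 1 else 0) - t' * (if V α ∧ α ∉ wf o then 1 else 0) := by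
      intro α
      simp only [fac, hx, if_true, Function.update_self]
      by_cases h3 : V α
      · by_cases h4 : α ∈ wf o
        · have h5 : Vis 𝒟 χ x (Function.update β x α) := h3
          simp [h3, h4, h5]
        · have h5 : Vis 𝒟 χ x (Function.update β x α) := h3
          simp [h3, h4, h5]
      · have h5 : ¬ Vis 𝒟 χ x (Function.update β x α) := h3
        simp [h3, h5]
    simp only [h2]
    rw [Finset.sum_sub_distrib, Finset.sum_add_distrib, ← Finset.mul_sum, ← Finset.mul_sum,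
      Finset.sum_boole, Finset.sum_boole, Finset.sum_const, Finset.card_univ, nsmul_eq_mul,
      mul_one]
    have h3 : (univ.filter fun α => V α ∧ α ∈ wf o) = (wf o).filter V := by
      ext α
      simp only [Finset.mem_filter, Finset.mem_univ, true_and]
      tauto
    rw [h3]
    set a : ℝ := (((wf o).filter V).card : ℝ) with ha
    set b : ℝ := ((univ.filter fun α => V α ∧ α ∉ wf o).card : ℝ) with hb
    have h4 : t * a ≤ t' * b := by
      have ha0 : 0 ≤ a := Nat.cast_nonneg _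
      calc t * a ≤ t' * ((1 + wq Z) ^ Fintype.card Y / (1 + wq Z) ^ k - 1) * a := by gcongr
        _ = t' * (a * ((1 + wq Z) ^ Fintype.card Y / (1 + wq Z) ^ k - 1)) := by ring
        _ ≤ t' * b := mul_le_mul_of_nonneg_left h1 ht0'
    linarith
  · intro x hx β
    rw [fac, if_neg hx]

lemma log_fac_ge {k : ℕ} {t t' : ℝ} (ht : 0 ≤ t) (ht' : t' < 1) (ht0' : 0 ≤ t')
    (hB : ∀ x B β, 𝒟 x B β → B.card ≤ k ∧ x ∉ B) (K : ℕ) (β : X → Y → Z) :
    (1 / ((K : ℝ) + 1)) * (K + 1) ^ Fintype.card X *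
        ((1 - k / ((K : ℝ) + 1)) * Real.log (1 + t) * good o 𝒟 β +
          Real.log (1 - t') * fail o 𝒟 β) ≤
      ∑ χ : X → Fin (K + 1), ∑ x, Real.log (fac o 𝒟 t t' χ x β) := by
  classical
  set P : ℝ := (1 / ((K : ℝ) + 1)) * (K + 1) ^ Fintype.card X with hP
  have hP0 : 0 ≤ P := by positivity
  have hlog1 : 0 ≤ Real.log (1 + t) := Real.log_nonneg (by linarith)
  have hlog2 : Real.log (1 - t') ≤ 0 := Real.log_nonpos (by linarith) (by linarith)
  rw [Finset.sum_comm]
  have h1 : ∀ x : X, P * ((1 - k / ((K : ℝ) + 1)) * Real.log (1 + t) *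
        (if Acc 𝒟 x β ∧ β x ∈ wf o then 1 else 0) +
          Real.log (1 - t') * (if Acc 𝒟 x β ∧ β x ∉ wf o then 1 else 0)) ≤
      ∑ χ : X → Fin (K + 1), Real.log (fac o 𝒟 t t' χ x β) := by
    intro x
    by_cases hacc : Acc 𝒟 x β
    · by_cases hwf : β x ∈ wf o
      · obtain ⟨B, hDB⟩ := hacc
        obtain ⟨hBk, hxB⟩ := hB x B β hDB
        have h2 := card_hide K hxB hBk
        rw [if_pos ⟨⟨B, hDB⟩, hwf⟩, if_neg (fun h => h.2 hwf), mul_zero, add_zero, mul_one]
        calc P * ((1 - k / ((K : ℝ) + 1)) * Real.log (1 + t))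
            = (1 / ((K : ℝ) + 1)) * (1 - k / ((K : ℝ) + 1)) * (K + 1) ^ Fintype.card X *
              Real.log (1 + t) := by rw [hP]; ring
          _ ≤ ((univ.filter fun χ : X → Fin (K + 1) => χ x = 0 ∧ ∀ y ∈ B, χ y ≠ 0).card : ℝ) *
              Real.log (1 + t) := mul_le_mul_of_nonneg_right h2 hlog1
          _ = ∑ χ ∈ univ.filter (fun χ : X → Fin (K + 1) => χ x = 0 ∧ ∀ y ∈ B, χ y ≠ 0),
              Real.log (fac o 𝒟 t t' χ x β) := by
              rw [← nsmul_eq_mul, ← Finset.sum_const]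
              refine Finset.sum_congr rfl fun χ hχ => ?_
              obtain ⟨h3, h4⟩ := (Finset.mem_filter.1 hχ).2
              have h5 : Vis 𝒟 χ x β := ⟨B, hDB, h4⟩
              rw [fac, if_pos h3, if_pos h5, if_pos hwf]
          _ ≤ _ := by
              refine Finset.sum_le_sum_of_subset_of_nonneg (Finset.subset_univ _) fun χ _ _ => ?_
              rw [fac, if_pos hwf]
              split_ifs
              · exact hlog1
              · simp
              · simp
      · rw [if_neg (fun h => hwf h.2), if_pos ⟨hacc, hwf⟩, mul_zero, zero_add, mul_one]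
        calc P * Real.log (1 - t')
            = ((univ.filter fun χ : X → Fin (K + 1) => χ x = 0).card : ℝ) *
              Real.log (1 - t') := by rw [card_hidden, hP]
          _ = ∑ χ ∈ univ.filter (fun χ : X → Fin (K + 1) => χ x = 0), Real.log (1 - t') := by
              rw [Finset.sum_const, nsmul_eq_mul]
          _ ≤ ∑ χ ∈ univ.filter (fun χ : X → Fin (K + 1) => χ x = 0),
              Real.log (fac o 𝒟 t t' χ x β) := by
              refine Finset.sum_le_sum fun χ _ => ?_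
              rw [fac, if_neg hwf]
              split_ifs
              · exact le_refl _
              · simpa using hlog2
              · simpa using hlog2
          _ = _ := by
              refine Finset.sum_subset (Finset.subset_univ _) fun χ _ hχ => ?_
              have h3 : ¬ χ x = 0 := fun h => hχ (by simp [h])
              rw [fac, if_neg h3, Real.log_one]
    · rw [if_neg (fun h => hacc h.1), if_neg (fun h => hacc h.1)]
      simp only [mul_zero, add_zero]
      refine le_of_eq (Eq.symm (Finset.sum_eq_zero fun χ _ => ?_))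
      have h3 : ¬ Vis 𝒟 χ x β := by
        rintro ⟨B, hDB, -⟩
        exact hacc ⟨B, hDB⟩
      rw [fac, if_neg h3]
      simp
  refine le_trans (le_of_eq ?_) (Finset.sum_le_sum fun x _ => h1 x)
  rw [← Finset.mul_sum, Finset.sum_add_distrib, ← Finset.mul_sum, ← Finset.mul_sum,
    Finset.sum_boole, Finset.sum_boole]
  rfl

/-- For certificates that look at few rows of few blocks, the number of right answers on blocks
without witness can exceed the number of wrong answers on blocks with a witness only for very few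
tables. -/
theorem finite_main (hK : 2 ≤ Fintype.card Z) {k : ℕ}
    (hloc : ∀ x B β β', 𝒟 x B β → (∀ y ∈ B, β y = β' y) → β x = β' x → 𝒟 x B β')
    (hpl : ∀ x B β, 𝒟 x B β → β x ∈ wf o → ∃ D : Finset Y, D.card ≤ k ∧
      ∀ W : Finset Y, Disjoint W D → 𝒟 x B (Function.update β x (plant o (β x) W)))
    (hB : ∀ x B β, 𝒟 x B β → B.card ≤ k ∧ x ∉ B) {η : ℝ} (h0 : 0 < η) (h1 : η ≤ 1)
    (hR : 1 - η / 80 ≤ (1 + wq Z) ^ Fintype.card Y / (1 + wq Z) ^ k - 1)
    (S : Finset (X → Y → Z))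
    (hS : ∀ β ∈ S, η * Fintype.card X ≤ (good o 𝒟 β : ℝ) - fail o 𝒟 β) :
    (S.card : ℝ) ≤ Real.exp (-(η ^ 3 * Fintype.card X / (400 * (k + 1)))) *
      (Fintype.card (Y → Z) : ℝ) ^ Fintype.card X := by
  classical
  set N : ℝ := (Fintype.card X : ℝ) with hN
  set t : ℝ := η / 40 with ht
  set t' : ℝ := t + t ^ 2 with ht'
  have ht0 : 0 < t := by rw [ht]; positivity
  have ht1 : t ≤ 1 / 40 := by rw [ht]; linarith
  have ht2 : t' < 1 := by rw [ht']; nlinarith
  have ht3 : 0 ≤ t' := by rw [ht']; positivity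
  have hR' : t ≤ t' * ((1 + wq Z) ^ Fintype.card Y / (1 + wq Z) ^ k - 1) := by
    calc t ≤ t' * (1 - t / 2) := by rw [ht']; nlinarith [pow_pos ht0 2, pow_pos ht0 3]
      _ = t' * (1 - η / 80) := by rw [ht]; ring
      _ ≤ _ := mul_le_mul_of_nonneg_left hR ht3
  set K : ℕ := ⌈4 * (k : ℝ) / η⌉₊ with hKdef
  have hK1 : 4 * (k : ℝ) / η ≤ K := Nat.le_ceil _
  have hK2 : (K : ℝ) < 4 * (k : ℝ) / η + 1 := Nat.ceil_lt_add_one (by positivity)
  have hKp : (0 : ℝ) < (K : ℝ) + 1 := by positivity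
  have hk0 : (0 : ℝ) ≤ k := Nat.cast_nonneg _
  have hκ : (k : ℝ) / ((K : ℝ) + 1) ≤ η / 4 := by
    rw [div_le_iff₀ hKp]
    rw [div_le_iff₀ h0] at hK1
    nlinarith
  have hK3 : (K : ℝ) + 1 ≤ 5 * (k + 1) / η := by
    have : 4 * (k : ℝ) / η + 2 ≤ 5 * (k + 1) / η := by
      rw [le_div_iff₀ h0, add_mul, div_mul_cancel₀ _ h0.ne']
      nlinarith
    linarith
  set c : ℝ := η ^ 3 * N / (400 * (k + 1)) with hc
  set P : ℝ := ((K : ℝ) + 1) ^ Fintype.card X with hP
  have hP0 : 0 < P := by positivity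
  have hPc : (Fintype.card (X → Fin (K + 1)) : ℝ) = P := by
    rw [Fintype.card_fun, Fintype.card_fin]
    push_cast
    rfl
  have hfacpos : ∀ (χ : X → Fin (K + 1)) x β, 0 < fac o 𝒟 t t' χ x β := by
    intro χ x β
    rw [fac]
    split_ifs <;> linarith
  have hN0 : 0 ≤ N := Nat.cast_nonneg _
  have h2 : ∀ β ∈ S, P * Real.exp c ≤ ∑ χ : X → Fin (K + 1), ∏ x, fac o 𝒟 t t' χ x β := by
    intro β hβ
    have h3 := log_fac_ge (o := o) (𝒟 := 𝒟) (k := k) ht0.le ht2 ht3 hB K β
    have hgN : (good o 𝒟 β : ℝ) ≤ N := by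
      rw [good, hN]
      exact_mod_cast Finset.card_le_univ _
    have hfN : (fail o 𝒟 β : ℝ) ≤ N := by
      rw [fail, hN]
      exact_mod_cast Finset.card_le_univ _
    have h4 := bracket_le h0 h1 (Nat.cast_nonneg (good o 𝒟 β)) hgN
      (Nat.cast_nonneg (fail o 𝒟 β)) hfN (by positivity) hκ (hS β hβ)
    have h5 : c ≤ (∑ χ : X → Fin (K + 1), ∑ x, Real.log (fac o 𝒟 t t' χ x β)) /
        Fintype.card (X → Fin (K + 1)) := by
      rw [hPc, le_div_iff₀ hP0]
      refine le_trans ?_ h3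
      have h6 : c ≤ 1 / ((K : ℝ) + 1) * (η ^ 2 * N / 80) := by
        have h7 : η / (5 * (k + 1)) ≤ 1 / ((K : ℝ) + 1) := by
          rw [div_le_div_iff₀ (by positivity) hKp]
          rw [le_div_iff₀ h0] at hK3
          linarith
        calc c = η / (5 * (k + 1)) * (η ^ 2 * N / 80) := by rw [hc]; field_simp; ring
          _ ≤ _ := mul_le_mul_of_nonneg_right h7 (by positivity)
      calc c * P ≤ 1 / ((K : ℝ) + 1) * (η ^ 2 * N / 80) * P :=
            mul_le_mul_of_nonneg_right h6 hP0.le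
        _ = (1 / ((K : ℝ) + 1)) * P * (η ^ 2 * N / 80) := by ring
        _ ≤ (1 / ((K : ℝ) + 1)) * P *
            ((1 - k / ((K : ℝ) + 1)) * Real.log (1 + t) * good o 𝒟 β +
              Real.log (1 - t') * fail o 𝒟 β) :=
            mul_le_mul_of_nonneg_left h4 (by positivity)
    have h6 := exp_mean_le fun χ : X → Fin (K + 1) => ∑ x, Real.log (fac o 𝒟 t t' χ x β)
    have h7 : ∀ χ : X → Fin (K + 1), Real.exp (∑ x, Real.log (fac o 𝒟 t t' χ x β)) =
        ∏ x, fac o 𝒟 t t' χ x β := by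
      intro χ
      rw [Real.exp_sum]
      exact Finset.prod_congr rfl fun x _ => Real.exp_log (hfacpos χ x β)
    simp only [h7] at h6
    have h8 := (Real.exp_le_exp.2 h5).trans h6
    rw [hPc, le_div_iff₀ hP0] at h8
    linarith
  have h3 : (S.card : ℝ) * (P * Real.exp c) ≤
      P * (Fintype.card (Y → Z) : ℝ) ^ Fintype.card X := by
    calc (S.card : ℝ) * (P * Real.exp c) = ∑ _β ∈ S, P * Real.exp c := by
          rw [Finset.sum_const, nsmul_eq_mul]
      _ ≤ ∑ β ∈ S, ∑ χ : X → Fin (K + 1), ∏ x, fac o 𝒟 t t' χ x β := Finset.sum_le_sum h2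
      _ ≤ ∑ β, ∑ χ : X → Fin (K + 1), ∏ x, fac o 𝒟 t t' χ x β :=
          Finset.sum_le_sum_of_subset_of_nonneg (Finset.subset_univ _) fun β _ _ =>
            Finset.sum_nonneg fun χ _ => Finset.prod_nonneg fun x _ => (hfacpos χ x β).le
      _ = ∑ χ : X → Fin (K + 1), ∑ β, ∏ x, fac o 𝒟 t t' χ x β := Finset.sum_comm
      _ ≤ ∑ _χ : X → Fin (K + 1), (Fintype.card (Y → Z) : ℝ) ^ Fintype.card X :=
          Finset.sum_le_sum fun χ _ => sum_fac_le hK ht0.le ht2.le ht3 hloc hpl hR' χ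
      _ = _ := by rw [Finset.sum_const, Finset.card_univ, nsmul_eq_mul, hPc]
  have h4 : (S.card : ℝ) * Real.exp c ≤ (Fintype.card (Y → Z) : ℝ) ^ Fintype.card X := by
    refine le_of_mul_le_mul_left ?_ hP0
    calc P * ((S.card : ℝ) * Real.exp c) = (S.card : ℝ) * (P * Real.exp c) := by ring
      _ ≤ _ := h3
  calc (S.card : ℝ) = Real.exp (-c) * ((S.card : ℝ) * Real.exp c) := by
        rw [mul_left_comm, ← Real.exp_add, neg_add_cancel, Real.exp_zero, mul_one]
    _ ≤ _ := mul_le_mul_of_nonneg_left h4 (Real.exp_pos _).le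

end Finite

end Pool.Agent.H51.TA
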