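import Pool.Agent.H17.AD.Words
import Pool.Agent.H51.TA.Agree
import Pool.Agent.H51.TA.Defs

/-!
# One length of the random oracle
-/

set_option autoImplicit false

namespace Pool.Agent.H51.TA

open Finset MeasureTheory Pool.Agent.H17.QM

/-! ### Countability, measurability -/

instance : Countable Path := by
  have h : Function.Injective fun C : Path => (C.yes, C.no) := by
    rintro ⟨a, b⟩ ⟨c, d⟩ h
    simp only [Prod.mk.injEq] at h
    obtain ⟨rfl, rfl⟩ := h
    rfl
  exact h.countable

lemma measurableSet_bit (z : List Bool) (b : Bool) :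
    MeasurableSet {A : List Bool → Bool | A z = b} :=
  measurable_pi_apply (X := fun _ : List Bool => Bool) z (measurableSet_singleton b)

lemma measurableSet_in (C : Path) : MeasurableSet {A : List Bool → Bool | C.In A} := by
  have : {A : List Bool → Bool | C.In A} =
      (⋂ z ∈ C.yes, {A : List Bool → Bool | A z = true}) ∩
        ⋂ z ∈ C.no, {A : List Bool → Bool | A z = false} := by
    ext A
    simp [Path.In]
  rw [this]
  exact (Finset.measurableSet_biInter _ fun z _ => measurableSet_bit z _).inter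
    (Finset.measurableSet_biInter _ fun z _ => measurableSet_bit z _)

lemma measurableSet_accepts (M : Mach) (x : List Bool) :
    MeasurableSet {A : List Bool → Bool | Accepts M A x} := by
  have : {A : List Bool → Bool | Accepts M A x} = ⋃ C ∈ M x, {A : List Bool → Bool | C.In A} := by
    ext A
    simp [Accepts]
  rw [this]
  exact MeasurableSet.biUnion (Set.to_countable _) fun C _ => measurableSet_in C

lemma measurableSet_lang' (p : ℕ → ℕ) (x : List Bool) :
    MeasurableSet {A : List Bool → Bool | x ∈ lang p A} := by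
  have : {A : List Bool → Bool | x ∈ lang p A} = ⋃ y ∈ {y : List Bool | rk y < wits x.length},
      ⋂ i ∈ Finset.range (bits x.length),
        {A : List Bool → Bool | A (code x y (p x.length + i)) = true} := by
    ext A
    simp [lang]
  rw [this]
  exact MeasurableSet.biUnion (Set.to_countable _) fun y _ =>
    Finset.measurableSet_biInter _ fun i _ => measurableSet_bit _ _

/-! ### The inputs of length `n` -/

/-- The inputs of length `n`. -/
noncomputable def inp (n : ℕ) (i : Fin (2 ^ n)) : List Bool := str (2 ^ n - 1 + i)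

lemma length_inp {n : ℕ} (i : Fin (2 ^ n)) : (inp n i).length = n := length_str_add i.2

lemma inp_injective (n : ℕ) : Function.Injective (inp n) := by
  intro i j h
  have h1 := str_injective h
  exact Fin.ext (by omega)

lemma exists_inp {n : ℕ} {x : List Bool} (hx : x.length = n) : ∃ i, inp n i = x := by
  have h1 := le_rk x
  have h2 := rk_lt x
  have h0 : 0 < 2 ^ n := by positivity
  rw [hx] at h1 h2
  rw [pow_succ] at h2
  refine ⟨⟨rk x - (2 ^ n - 1), by omega⟩, ?_⟩
  rw [inp]
  have : 2 ^ n - 1 + (rk x - (2 ^ n - 1)) = rk x := by omega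
  simp only [this, str_rk]

open Classical in
lemma right_eq (M : Mach) (A : List Bool → Bool) (L : Set (List Bool)) (n : ℕ) :
    right M A L n = (univ.filter fun i : Fin (2 ^ n) =>
      (Accepts M A (inp n i) ↔ inp n i ∉ L)).card := by
  rw [right]
  have : {x : List Bool | x.length = n ∧ (Accepts M A x ↔ x ∉ L)} =
      ((univ.filter fun i : Fin (2 ^ n) => (Accepts M A (inp n i) ↔ inp n i ∉ L)).image (inp n) :
        Finset (List Bool)) := by
    ext x
    simp only [Set.mem_ofPred_eq, Finset.coe_image, Finset.coe_filter, Finset.mem_univ, true_and,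
      Set.mem_image]
    constructor
    · rintro ⟨h1, h2⟩
      obtain ⟨i, rfl⟩ := exists_inp h1
      exact ⟨i, h2, rfl⟩
    · rintro ⟨i, h1, rfl⟩
      exact ⟨length_inp i, h1⟩
  rw [this, Set.ncard_coe_finset, Finset.card_image_of_injective _ (inp_injective n)]

lemma measurableSet_right (M : Mach) (p : ℕ → ℕ) (n : ℕ) (c : ℝ) :
    MeasurableSet {A : List Bool → Bool | c ≤ (right M A (lang p A) n : ℝ)} := by
  classical
  have h1 : (fun A : List Bool → Bool => (right M A (lang p A) n : ℝ)) = fun A =>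
      ∑ i : Fin (2 ^ n), {A : List Bool → Bool | (Accepts M A (inp n i) ↔ inp n i ∉ lang p A)}.indicator
        (fun _ => (1 : ℝ)) A := by
    funext A
    rw [right_eq, ← Finset.sum_boole]
    refine Finset.sum_congr rfl fun i _ => ?_
    simp only [Set.indicator_apply, Set.mem_ofPred_eq]
  have h2 : Measurable fun A : List Bool → Bool => (right M A (lang p A) n : ℝ) := by
    rw [h1]
    refine Finset.measurable_sum _ fun i _ => measurable_const.indicator ?_
    have : {A : List Bool → Bool | (Accepts M A (inp n i) ↔ inp n i ∉ lang p A)} =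
        ({A : List Bool → Bool | Accepts M A (inp n i)} ∩
          {A : List Bool → Bool | inp n i ∈ lang p A}ᶜ) ∪
        ({A : List Bool → Bool | Accepts M A (inp n i)}ᶜ ∩
          {A : List Bool → Bool | inp n i ∈ lang p A}) := by
      ext A
      simp only [Set.mem_ofPred_eq, Set.mem_union, Set.mem_inter_iff, Set.mem_compl_iff]
      tauto
    rw [this]
    exact ((measurableSet_accepts M _).inter (measurableSet_lang' p _).compl).union
      ((measurableSet_accepts M _).compl.inter (measurableSet_lang' p _))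
  exact measurableSet_le measurable_const h2

/-! ### The blocks -/

/-- The strings that decide membership of the inputs of length `n`. -/
noncomputable def eb (p : ℕ → ℕ) (n : ℕ) (q : (Fin (2 ^ n) × Fin (wits n)) × Fin (bits n)) :
    List Bool := code (inp n q.1.1) (str q.1.2) (p n + q.2)

lemma eb_injective (p : ℕ → ℕ) (n : ℕ) : Function.Injective (eb p n) := by
  rintro ⟨⟨x, y⟩, i⟩ ⟨⟨x', y'⟩, i'⟩ h
  obtain ⟨h1, h2, h3⟩ := code_injective h
  have h4 := inp_injective n h1
  have h5 : y = y' := Fin.ext (str_injective h2)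
  have h6 : i = i' := Fin.ext (by simpa using h3)
  simp only at h4
  rw [h4, h5, h6]

lemma length_eb (p : ℕ → ℕ) (n : ℕ) (q : (Fin (2 ^ n) × Fin (wits n)) × Fin (bits n)) :
    p n ≤ (eb p n q).length := by
  simp only [eb, code, List.length_append, List.length_cons, List.length_replicate]
  omega

/-- The oracle with the blocks `β`. -/
noncomputable def orc (p : ℕ → ℕ) (n : ℕ) (ω : List Bool → Bool)
    (β : Fin (2 ^ n) → Fin (wits n) → Fin (bits n) → Bool) : List Bool → Bool :=
  fill (eb p n) ω fun q i => β q.1 q.2 i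

lemma orc_eb (p : ℕ → ℕ) (n : ℕ) (ω : List Bool → Bool)
    (β : Fin (2 ^ n) → Fin (wits n) → Fin (bits n) → Bool) (x : Fin (2 ^ n)) (y : Fin (wits n))
    (i : Fin (bits n)) : orc p n ω β (eb p n ((x, y), i)) = β x y i := by
  rw [orc, fill_block _ (eb_injective p n)]

lemma mem_lang_orc (p : ℕ → ℕ) (n : ℕ) (ω : List Bool → Bool)
    (β : Fin (2 ^ n) → Fin (wits n) → Fin (bits n) → Bool) (x : Fin (2 ^ n)) :
    inp n x ∈ lang p (orc p n ω β) ↔ β x ∉ wf fun _ : Fin (bits n) => true := by
  rw [mem_wf]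
  push Not
  have hl := length_inp x
  constructor
  · rintro ⟨y, hy, h⟩
    rw [hl] at hy h
    refine ⟨⟨rk y, hy⟩, funext fun i => ?_⟩
    have h1 := h i i.2
    have h2 : code (inp n x) y (p n + i) = eb p n ((x, ⟨rk y, hy⟩), i) := by
      rw [eb, str_rk]
    rw [h2, orc_eb] at h1
    exact h1
  · rintro ⟨y, hy⟩
    refine ⟨str y, by rw [rk_str, hl]; exact y.2, fun i hi => ?_⟩
    rw [hl] at hi ⊢
    have h2 : code (inp n x) (str y) (p n + i) = eb p n ((x, y), ⟨i, hi⟩) := rfl
    rw [h2, orc_eb, hy]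

open Classical in
/-- The blocks other than `x` at which the path `C` looks. -/
noncomputable def blks (p : ℕ → ℕ) (n : ℕ) (C : Path) (x : Fin (2 ^ n)) : Finset (Fin (2 ^ n)) :=
  univ.filter fun x' => x' ≠ x ∧ ∃ y i, eb p n ((x', y), i) ∈ C.yes ∪ C.no

open Classical in
/-- The rows of the block `x` at which the path `C` looks. -/
noncomputable def rws (p : ℕ → ℕ) (n : ℕ) (C : Path) (x : Fin (2 ^ n)) : Finset (Fin (wits n)) :=
  univ.filter fun y => ∃ i, eb p n ((x, y), i) ∈ C.yes ∪ C.no

lemma card_touched {ι : Type*} {p : ℕ} (C : Path) (S : Finset ι) (f : ι → List Bool)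
    (hf : Set.InjOn f S) (hC : ∀ a ∈ S, f a ∈ C.yes ∪ C.no) (hp : ∀ a ∈ S, p ≤ (f a).length) :
    S.card * p ≤ C.len := by
  classical
  calc S.card * p = ∑ _a ∈ S, p := by rw [Finset.sum_const, smul_eq_mul]
    _ ≤ ∑ a ∈ S, (f a).length := Finset.sum_le_sum hp
    _ = ∑ z ∈ S.image f, z.length := (Finset.sum_image (fun a ha b hb h => hf ha hb h)).symm
    _ ≤ ∑ z ∈ C.yes ∪ C.no, z.length := by
        refine Finset.sum_le_sum_of_subset fun z hz => ?_
        obtain ⟨a, ha, rfl⟩ := Finset.mem_image.1 hz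
        exact hC a ha
    _ = _ := rfl

lemma card_blks (p : ℕ → ℕ) (n : ℕ) (C : Path) (x : Fin (2 ^ n)) :
    (blks p n C x).card * p n ≤ C.len := by
  classical
  have h : ∀ x' ∈ blks p n C x, ∃ q : Fin (wits n) × Fin (bits n),
      eb p n ((x', q.1), q.2) ∈ C.yes ∪ C.no := by
    intro x' hx'
    obtain ⟨-, y, i, hi⟩ := (Finset.mem_filter.1 hx').2
    exact ⟨(y, i), hi⟩
  choose q hq using h
  rw [← Finset.card_attach]
  refine card_touched C (blks p n C x).attach
    (fun x' => eb p n ((x'.1, (q x'.1 x'.2).1), (q x'.1 x'.2).2)) ?_ (fun x' _ => hq x'.1 x'.2)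
    fun x' _ => length_eb p n _
  intro a _ b _ hab
  have := eb_injective p n hab
  simp only [Prod.mk.injEq] at this
  exact Subtype.ext this.1.1

lemma card_rws (p : ℕ → ℕ) (n : ℕ) (C : Path) (x : Fin (2 ^ n)) :
    (rws p n C x).card * p n ≤ C.len := by
  classical
  have h : ∀ y ∈ rws p n C x, ∃ i : Fin (bits n), eb p n ((x, y), i) ∈ C.yes ∪ C.no := by
    intro y hy
    exact (Finset.mem_filter.1 hy).2
  choose q hq using h
  rw [← Finset.card_attach]
  refine card_touched C (rws p n C x).attach (fun y => eb p n ((x, y.1), q y.1 y.2)) ?_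
    (fun y _ => hq y.1 y.2) fun y _ => length_eb p n _
  intro a _ b _ hab
  have := eb_injective p n hab
  simp only [Prod.mk.injEq] at this
  exact Subtype.ext this.1.2

/-- The certificates of the finite theorem. -/
def dd (M : Mach) (p : ℕ → ℕ) (n : ℕ) (ω : List Bool → Bool) (x : Fin (2 ^ n))
    (B : Finset (Fin (2 ^ n))) (β : Fin (2 ^ n) → Fin (wits n) → Fin (bits n) → Bool) : Prop :=
  ∃ C ∈ M (inp n x), C.In (orc p n ω β) ∧ B = blks p n C x

lemma in_congr {C : Path} {A A' : List Bool → Bool} (h : ∀ z ∈ C.yes ∪ C.no, A z = A' z)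
    (hC : C.In A) : C.In A' := by
  refine ⟨fun z hz => ?_, fun z hz => ?_⟩
  · rw [← h z (Finset.mem_union_left _ hz)]; exact hC.1 z hz
  · rw [← h z (Finset.mem_union_right _ hz)]; exact hC.2 z hz

lemma dd_loc (M : Mach) (p : ℕ → ℕ) (n : ℕ) (ω : List Bool → Bool) (x : Fin (2 ^ n))
    (B : Finset (Fin (2 ^ n))) (β β' : Fin (2 ^ n) → Fin (wits n) → Fin (bits n) → Bool)
    (hD : dd M p n ω x B β) (h1 : ∀ y ∈ B, β y = β' y) (h2 : β x = β' x) :
    dd M p n ω x B β' := by
  obtain ⟨C, hC, hin, rfl⟩ := hD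
  refine ⟨C, hC, in_congr (fun z hz => ?_) hin, rfl⟩
  by_cases h : ∃ q, eb p n q = z
  · obtain ⟨⟨⟨x', y⟩, i⟩, rfl⟩ := h
    rw [orc_eb, orc_eb]
    by_cases hx : x' = x
    · rw [hx, h2]
    · rw [h1 x' (Finset.mem_filter.2 ⟨Finset.mem_univ _, hx, y, i, hz⟩)]
  · rw [orc, orc, fill_off _ _ _ fun q hq => h ⟨q, hq⟩, fill_off _ _ _ fun q hq => h ⟨q, hq⟩]

lemma dd_plant (M : Mach) (p : ℕ → ℕ) (n : ℕ) {T : ℕ} (hp : 0 < p n)
    (hT : ∀ x, x.length = n → ∀ C ∈ M x, C.len ≤ T) (ω : List Bool → Bool) (x : Fin (2 ^ n))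
    (B : Finset (Fin (2 ^ n))) (β : Fin (2 ^ n) → Fin (wits n) → Fin (bits n) → Bool)
    (hD : dd M p n ω x B β) : ∃ D : Finset (Fin (wits n)), D.card ≤ T / p n ∧
      ∀ W : Finset (Fin (wits n)), Disjoint W D →
        dd M p n ω x B (Function.update β x (plant (fun _ => true) (β x) W)) := by
  obtain ⟨C, hC, hin, rfl⟩ := hD
  refine ⟨rws p n C x, ?_, fun W hW => ⟨C, hC, in_congr (fun z hz => ?_) hin, rfl⟩⟩
  · rw [Nat.le_div_iff_mul_le hp]
    exact (card_rws p n C x).trans (hT _ (length_inp x) C hC)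
  · by_cases h : ∃ q, eb p n q = z
    · obtain ⟨⟨⟨x', y⟩, i⟩, rfl⟩ := h
      rw [orc_eb, orc_eb]
      by_cases hx : x' = x
      · subst hx
        have hy : y ∈ rws p n C x' := Finset.mem_filter.2 ⟨Finset.mem_univ _, i, hz⟩
        have hyW : y ∉ W := fun h => Finset.disjoint_left.1 hW h hy
        rw [Function.update_self, plant, if_neg hyW]
      · rw [Function.update_of_ne hx]
    · rw [orc, orc, fill_off _ _ _ fun q hq => h ⟨q, hq⟩, fill_off _ _ _ fun q hq => h ⟨q, hq⟩]

lemma dd_card (M : Mach) (p : ℕ → ℕ) (n : ℕ) {T : ℕ} (hp : 0 < p n)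
    (hT : ∀ x, x.length = n → ∀ C ∈ M x, C.len ≤ T) (ω : List Bool → Bool) (x : Fin (2 ^ n))
    (B : Finset (Fin (2 ^ n))) (β : Fin (2 ^ n) → Fin (wits n) → Fin (bits n) → Bool)
    (hD : dd M p n ω x B β) : B.card ≤ T / p n ∧ x ∉ B := by
  obtain ⟨C, hC, hin, rfl⟩ := hD
  refine ⟨?_, fun h => (Finset.mem_filter.1 h).2.1 rfl⟩
  rw [Nat.le_div_iff_mul_le hp]
  exact (card_blks p n C x).trans (hT _ (length_inp x) C hC)

lemma acc_iff (M : Mach) (p : ℕ → ℕ) (n : ℕ) (ω : List Bool → Bool) (x : Fin (2 ^ n))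
    (β : Fin (2 ^ n) → Fin (wits n) → Fin (bits n) → Bool) :
    Acc (dd M p n ω) x β ↔ Accepts M (orc p n ω β) (inp n x) := by
  constructor
  · rintro ⟨B, C, hC, hin, -⟩
    exact ⟨C, hC, hin⟩
  · rintro ⟨C, hC, hin⟩
    exact ⟨_, C, hC, hin, rfl⟩

lemma right_orc (M : Mach) (p : ℕ → ℕ) (n : ℕ) (ω : List Bool → Bool)
    (β : Fin (2 ^ n) → Fin (wits n) → Fin (bits n) → Bool) :
    right M (orc p n ω β) (lang p (orc p n ω β)) n =
      agr (fun _ : Fin (bits n) => true) (dd M p n ω) β := by
  classical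
  rw [right_eq, agr]
  congr 1
  ext x
  simp only [Finset.mem_filter, Finset.mem_univ, true_and, acc_iff, mem_lang_orc, not_not]

end Pool.Agent.H51.TA
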