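import Pool.Agent.H17.QM.Oracle
import Pool.Agent.H51.TA.Oracle

/-!
# The probability that a machine is right often at one length
-/

set_option autoImplicit false

namespace Pool.Agent.H51.TA

open Finset MeasureTheory Pool.Agent.H17.QM

lemma one_add_wq (m : ℕ) (hm : 1 ≤ m) :
    1 + wq (Fin m → Bool) = 1 / (1 - 1 / 2 ^ m) := by
  have h2m : (2 : ℝ) ≤ 2 ^ m := by
    calc (2 : ℝ) = 2 ^ 1 := by norm_num
      _ ≤ 2 ^ m := pow_le_pow_right₀ (by norm_num) hm
  have hc : (Fintype.card (Fin m → Bool) : ℝ) = 2 ^ m := by simp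
  rw [wq, hc]
  have h3 : (2 : ℝ) ^ m - 1 ≠ 0 := by linarith
  have h4 : (2 : ℝ) ^ m ≠ 0 := by positivity
  field_simp
  ring

lemma ratio_le {m k : ℕ} (hm : 1 ≤ m) {η : ℝ} (hk : 80 * (4 + 2 * (k : ℝ)) ≤ η * 2 ^ m) :
    1 - η / 80 ≤ (1 + wq (Fin m → Bool)) ^ ⌊(2 : ℝ) ^ m * Real.log 2⌋₊ /
      (1 + wq (Fin m → Bool)) ^ k - 1 := by
  have h2m : (2 : ℝ) ≤ 2 ^ m := by
    calc (2 : ℝ) = 2 ^ 1 := by norm_num
      _ ≤ 2 ^ m := pow_le_pow_right₀ (by norm_num) hm
  have hb := bias_le m hm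
  set K : ℕ := ⌊(2 : ℝ) ^ m * Real.log 2⌋₊ with hK
  set x : ℝ := 1 / 2 ^ m with hx
  have hx0 : 0 < x := by positivity
  have hx1 : x ≤ 1 / 2 := by
    rw [hx, div_le_div_iff₀ (by positivity) (by norm_num)]; linarith
  have h2x : (2 : ℝ) / 2 ^ m = 2 * x := by rw [hx]; ring
  have hw := one_add_wq m hm
  rw [← hx] at hw
  set u : ℝ := 1 + wq (Fin m → Bool) with hu
  have h1x : 0 < 1 - x := by linarith
  have hu0 : 0 < u := by rw [hw]; positivity
  have hpk : 0 < u ^ k := by positivity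
  have hpK : 0 < u ^ K := by positivity
  -- lower bound for `u ^ K`
  have h1 : 2 * (1 - 2 * x) ≤ u ^ K := by
    rw [h2x] at hb
    have h3 : 2 / u ^ K ≤ 1 + 2 * x := by
      have := (abs_le.1 hb).1
      linarith
    rw [div_le_iff₀ hpK] at h3
    by_contra hcon
    push Not at hcon
    have h4 : (1 + 2 * x) * u ^ K < (1 + 2 * x) * (2 * (1 - 2 * x)) :=
      mul_lt_mul_of_pos_left hcon (by linarith)
    nlinarith
  -- upper bound for `u ^ k`
  have h2 : 1 - k * x ≤ (u ^ k)⁻¹ := by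
    have h3 : (u ^ k)⁻¹ = (1 - x) ^ k := by
      rw [hw, one_div, inv_pow, inv_inv]
    rw [h3]
    have h4 := one_add_mul_le_pow (show (-2 : ℝ) ≤ -x by linarith) k
    calc 1 - k * x = 1 + k * -x := by ring
      _ ≤ (1 + -x) ^ k := h4
      _ = (1 - x) ^ k := by rw [← sub_eq_add_neg]
  have h3 : (4 + 2 * (k : ℝ)) * x ≤ η / 80 := by
    rw [hx, mul_one_div, div_le_div_iff₀ (by positivity) (by norm_num)]
    linarith
  have hk0 : (0 : ℝ) ≤ k := Nat.cast_nonneg _
  have h5 : 2 - (4 + 2 * (k : ℝ)) * x ≤ u ^ K / u ^ k := by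
    rw [div_eq_mul_inv]
    have h6 : 2 * (1 - 2 * x) * (u ^ k)⁻¹ ≤ u ^ K * (u ^ k)⁻¹ :=
      mul_le_mul_of_nonneg_right h1 (by positivity)
    have h7 : 2 * (1 - 2 * x) * (1 - k * x) ≤ 2 * (1 - 2 * x) * (u ^ k)⁻¹ :=
      mul_le_mul_of_nonneg_left h2 (by linarith)
    have h8 : 0 ≤ 4 * (k : ℝ) * x * x := by positivity
    nlinarith
  linarith

lemma bias_le' {m k : ℕ} (hm : 1 ≤ m) {η : ℝ} (hk : 80 * (4 + 2 * (k : ℝ)) ≤ η * 2 ^ m) :
    |1 - 2 / (1 + wq (Fin m → Bool)) ^ ⌊(2 : ℝ) ^ m * Real.log 2⌋₊| ≤ η / 2 := by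
  refine (bias_le m hm).trans ?_
  have hk0 : (0 : ℝ) ≤ k := Nat.cast_nonneg _
  rw [div_le_div_iff₀ (by positivity) (by norm_num)]
  linarith

/-- The probability that the machine `M` is right about the complement of the language on more than
`(1/2 + 2η) 2^n` inputs of length `n`. -/
theorem level_bound (M : Mach) (p : ℕ → ℕ) (n : ℕ) {T : ℕ} (hp : 0 < p n)
    (hT : ∀ x, x.length = n → ∀ C ∈ M x, C.len ≤ T) {η : ℝ} (h0 : 0 < η) (h1 : η ≤ 1)
    (hk : 80 * (4 + 2 * ((T / p n : ℕ) : ℝ)) ≤ η * 2 ^ bits n) :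
    (coins (List Bool)).real {A | (1 / 2 + 2 * η) * 2 ^ n ≤ (right M A (lang p A) n : ℝ)} ≤
      2 * Real.exp (-(η ^ 3 * 2 ^ n / (400 * (((T / p n : ℕ) : ℝ) + 1)))) := by
  classical
  have hm : 1 ≤ bits n := by unfold bits; omega
  have hK : 2 ≤ Fintype.card (Fin (bits n) → Bool) := by
    simp only [Fintype.card_pi, Fintype.card_bool, Finset.prod_const, Finset.card_univ,
      Fintype.card_fin]
    calc 2 = 2 ^ 1 := rfl
      _ ≤ 2 ^ bits n := Nat.pow_le_pow_right (by norm_num) hm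
  set Z : Set (List Bool → Bool) :=
    {A | (1 / 2 + 2 * η) * 2 ^ n ≤ (right M A (lang p A) n : ℝ)} with hZ
  set τ : ℝ := 2 * Real.exp (-(η ^ 3 * 2 ^ n / (400 * (((T / p n : ℕ) : ℝ) + 1)))) with hτ
  have hmain := level_measure (e := eb p n) (eb_injective p n) (Z := Z) (S := Set.univ)
    (E := Set.univ) (measurableSet_right M p n _) MeasurableSet.univ MeasurableSet.univ
    (by simp) (μ := 0) (τ := τ) ?_ (by positivity)
  · simpa using hmain
  · intro ω
    rw [zero_mul, zero_add]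
    have e1 : ∑ g : Fin (2 ^ n) × Fin (wits n) → Fin (bits n) → Bool,
        Z.indicator (fun _ => (1 : ℝ)) (fill (eb p n) ω g) =
        ((univ.filter fun β : Fin (2 ^ n) → Fin (wits n) → Fin (bits n) → Bool =>
          orc p n ω β ∈ Z).card : ℝ) := by
      rw [← Finset.sum_boole]
      refine Fintype.sum_equiv
        (Equiv.curry (Fin (2 ^ n)) (Fin (wits n)) (Fin (bits n) → Bool)) _ _ fun g => ?_
      have : orc p n ω (Equiv.curry (Fin (2 ^ n)) (Fin (wits n)) (Fin (bits n) → Bool) g) =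
        fill (eb p n) ω g := rfl
      rw [this]
      simp only [Set.indicator_apply]
    rw [e1]
    have e2 := agree_main (o := fun _ : Fin (bits n) => true) (𝒟 := dd M p n ω) hK
      (k := T / p n) (fun x B β β' h h2 h3 => dd_loc M p n ω x B β β' h h2 h3)
      (fun x B β h _ => dd_plant M p n hp hT ω x B β h)
      (fun x B β h => dd_card M p n hp hT ω x B β h) h0 h1
      (by rw [Fintype.card_fin]; exact ratio_le hm hk)
      (by rw [Fintype.card_fin]; exact bias_le' hm hk)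
      (univ.filter fun β : Fin (2 ^ n) → Fin (wits n) → Fin (bits n) → Bool => orc p n ω β ∈ Z)
      (fun β hβ => by
        have h2 := (Finset.mem_filter.1 hβ).2
        rw [hZ, Set.mem_ofPred_eq, right_orc] at h2
        rw [Fintype.card_fin]
        push_cast
        exact h2)
    refine e2.trans (le_of_eq ?_)
    rw [hτ]
    simp only [Fintype.card_fin, Nat.cast_pow, Nat.cast_ofNat]
    congr 1
    simp only [Fintype.card_pi, Finset.prod_const, Finset.card_univ, Fintype.card_fin,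
      Fintype.card_prod, Fintype.card_bool]
    push_cast
    ring

end Pool.Agent.H51.TA
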