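import Pool.Agent.H51.TA.Level

/-!
# The time-advice lower bound: the main theorem
-/

set_option autoImplicit false

namespace Pool.Agent.H51.TA

open MeasureTheory Filter Topology Pool.Agent.H17.QM

/-- Some advice below `N` makes the machine right too often at length `n`. -/
def Bad (M : ℕ → Mach) (p : ℕ → ℕ) (N : ℕ) (η : ℝ) (n : ℕ) : Set (List Bool → Bool) :=
  ⋃ s ∈ Finset.range N, {A | (1 / 2 + 2 * η) * 2 ^ n ≤ (right (M s) A (lang p A) n : ℝ)}

lemma bad_bound {M : ℕ → Mach} {p : ℕ → ℕ} {n T C N : ℕ} (hp : 0 < p n)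
    (hT : ∀ s x, x.length = n → ∀ P ∈ M s x, P.len ≤ C * T) {η : ℝ} (h0 : 0 < η) (h1 : η ≤ 1)
    (hlim : 9600 * ((C : ℝ) + 1) * (((T : ℝ) / p n + 1) * Real.log (((n : ℝ) + 2) * (N + 1))) ≤
      η ^ 3 * 2 ^ n) :
    (coins (List Bool)).real (Bad M p N (η / 2) n) ≤ 2 / ((n : ℝ) + 2) ^ 2 := by
  have hn0 : (0 : ℝ) ≤ n := Nat.cast_nonneg _
  have hN0 : (0 : ℝ) ≤ N := Nat.cast_nonneg _
  have hC0 : (0 : ℝ) ≤ C := Nat.cast_nonneg _
  have hT0 : (0 : ℝ) ≤ (T : ℝ) / p n := by positivity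
  set Λ : ℝ := ((n : ℝ) + 2) * (N + 1) with hΛ
  have hΛ2 : 2 ≤ Λ := by rw [hΛ]; nlinarith
  have hlog : 1 / 2 ≤ Real.log Λ := by
    have h2 : Real.log 2 ≤ Real.log Λ := Real.log_le_log (by norm_num) hΛ2
    have h3 := Real.log_two_gt_d9
    linarith
  set k : ℕ := C * T / p n with hk
  have hk0 : (0 : ℝ) ≤ k := Nat.cast_nonneg _
  have hk1 : (k : ℝ) + 1 ≤ ((C : ℝ) + 1) * ((T : ℝ) / p n + 1) := by
    have h2 : (k : ℝ) ≤ C * ((T : ℝ) / p n) := by
      have := Nat.cast_div_le (α := ℝ) (m := C * T) (n := p n)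
      rw [← hk] at this
      push_cast at this
      rw [← mul_div_assoc]
      exact this
    nlinarith
  have hη3 : η ^ 3 ≤ η := by
    calc η ^ 3 = η * η ^ 2 := by ring
      _ ≤ η * 1 := mul_le_mul_of_nonneg_left (pow_le_one₀ h0.le h1) h0.le
      _ = η := mul_one η
  have hP : (0 : ℝ) < 2 ^ n := by positivity
  -- the side condition
  have hside : 80 * (4 + 2 * (k : ℝ)) ≤ η / 2 * 2 ^ bits n := by
    have h2 : 4800 * ((k : ℝ) + 1) ≤ η ^ 3 * 2 ^ n := by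
      calc 4800 * ((k : ℝ) + 1) ≤ 4800 * (((C : ℝ) + 1) * ((T : ℝ) / p n + 1)) := by linarith
        _ = 9600 * ((C : ℝ) + 1) * (((T : ℝ) / p n + 1) * (1 / 2)) := by ring
        _ ≤ 9600 * ((C : ℝ) + 1) * (((T : ℝ) / p n + 1) * Real.log Λ) := by gcongr
        _ ≤ _ := hlim
    have h3 : η ^ 3 * 2 ^ n ≤ η * 2 ^ n := mul_le_mul_of_nonneg_right hη3 hP.le
    have h4 : (2 : ℝ) ^ n ≤ 2 ^ bits n := pow_le_pow_right₀ (by norm_num) (by unfold bits; omega)
    have h5 : η * 2 ^ n ≤ η * 2 ^ bits n := mul_le_mul_of_nonneg_left h4 h0.le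
    linarith
  -- one advice
  have hone : ∀ s, (coins (List Bool)).real
      {A | (1 / 2 + 2 * (η / 2)) * 2 ^ n ≤ (right (M s) A (lang p A) n : ℝ)} ≤ 2 / Λ ^ 3 := by
    intro s
    refine (level_bound (M s) p n hp (hT s) (by positivity) (by linarith) hside).trans ?_
    have h2 : 3 * Real.log Λ ≤ (η / 2) ^ 3 * 2 ^ n / (400 * ((k : ℝ) + 1)) := by
      rw [le_div_iff₀ (by positivity)]
      have h3 : 9600 * (((k : ℝ) + 1) * Real.log Λ) ≤ η ^ 3 * 2 ^ n := by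
        calc 9600 * (((k : ℝ) + 1) * Real.log Λ)
            ≤ 9600 * (((C : ℝ) + 1) * ((T : ℝ) / p n + 1) * Real.log Λ) := by gcongr
          _ = 9600 * ((C : ℝ) + 1) * (((T : ℝ) / p n + 1) * Real.log Λ) := by ring
          _ ≤ _ := hlim
      have h4 : (η / 2) ^ 3 * 2 ^ n = η ^ 3 * 2 ^ n / 8 := by ring
      rw [h4]
      linarith
    have h3 : Real.exp (-((η / 2) ^ 3 * 2 ^ n / (400 * ((k : ℝ) + 1)))) ≤
        Real.exp (-(3 * Real.log Λ)) := Real.exp_le_exp.2 (neg_le_neg h2)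
    have h4 : Real.exp (-(3 * Real.log Λ)) = 1 / Λ ^ 3 := by
      rw [Real.exp_neg, ← Real.exp_log (show (0 : ℝ) < Λ by linarith), ← Real.exp_nat_mul,
        Real.exp_log (show (0 : ℝ) < Λ by linarith), one_div]
      norm_num
    calc 2 * Real.exp (-((η / 2) ^ 3 * 2 ^ n / (400 * ((k : ℝ) + 1))))
        ≤ 2 * (1 / Λ ^ 3) := by rw [← h4]; linarith
      _ = 2 / Λ ^ 3 := by ring
  have hun : (coins (List Bool)).real (Bad M p N (η / 2) n) ≤ ∑ s ∈ Finset.range N, 2 / Λ ^ 3 :=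
    (measureReal_biUnion_finset_le _ _).trans (Finset.sum_le_sum fun s _ => hone s)
  refine hun.trans ?_
  rw [Finset.sum_const, Finset.card_range, nsmul_eq_mul]
  have h2 : (N : ℝ) * (2 / Λ ^ 3) ≤ (N + 1) * (2 / Λ ^ 3) :=
    mul_le_mul_of_nonneg_right (by linarith) (by positivity)
  refine h2.trans ?_
  have h3 : ((N : ℝ) + 1) * (2 / Λ ^ 3) = 2 / (((n : ℝ) + 2) ^ 3 * ((N : ℝ) + 1) ^ 2) := by
    rw [hΛ]
    field_simp
  rw [h3]
  refine div_le_div_of_nonneg_left (by norm_num) (by positivity) ?_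
  have h4 : (1 : ℝ) ≤ ((N : ℝ) + 1) ^ 2 := one_le_pow₀ (by linarith)
  have h5 : ((n : ℝ) + 2) ^ 2 ≤ ((n : ℝ) + 2) ^ 3 := pow_le_pow_right₀ (by linarith) (by norm_num)
  calc ((n : ℝ) + 2) ^ 2 ≤ ((n : ℝ) + 2) ^ 3 * 1 := by linarith
    _ ≤ _ := mul_le_mul_of_nonneg_left h4 (by positivity)

lemma summable_sq : Summable fun n : ℕ => 2 / ((n : ℝ) + 2) ^ 2 := by
  have h1 : Summable fun n : ℕ => 1 / ((n : ℝ)) ^ 2 :=
    Real.summable_one_div_nat_pow.2 (by norm_num)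
  have h2 := (summable_nat_add_iff 2).2 h1
  refine (h2.mul_left 2).congr fun n => ?_
  push_cast
  ring

/-- The lower bound for one machine with advice. -/
theorem lower_single {M : ℕ → Mach} {p T N : ℕ → ℕ} {η : ℕ → ℝ} {C : ℕ} (hp : ∀ n, 0 < p n)
    (hT : ∀ s, Time (M s) fun n => C * T n) (h0 : ∀ n, 0 < η n) (h1 : ∀ n, η n ≤ 1)
    (hlim : Tendsto (fun n : ℕ => ((T n : ℝ) / p n + 1) * Real.log (((n : ℝ) + 2) * (N n + 1)) /
      (η n ^ 3 * 2 ^ n)) atTop (𝓝 0)) :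
    ∀ᵐ A ∂(coins (List Bool)), ∀ᶠ n in atTop, ∀ s < N n,
      (right (M s) A (lang p A) n : ℝ) < (1 / 2 + η n) * 2 ^ n := by
  have hae : ∀ᵐ A ∂(coins (List Bool)), ∀ᶠ n in atTop, A ∉ Bad M p (N n) (η n / 2) n := by
    refine ae_eventually_notMem ?_
    have hreal : Summable fun n : ℕ => (coins (List Bool)).real (Bad M p (N n) (η n / 2) n) := by
      refine Summable.of_norm_bounded_eventually_nat summable_sq ?_
      have hpos : (0 : ℝ) < 1 / (9600 * ((C : ℝ) + 1)) := by positivity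
      filter_upwards [hlim.eventually (gt_mem_nhds hpos)] with n hn
      rw [Real.norm_eq_abs, abs_of_nonneg measureReal_nonneg]
      refine bad_bound (C := C) (T := T n) (hp n) (fun s x hx P hP => ?_) (h0 n) (h1 n) ?_
      · have := hT s x P hP
        rwa [hx] at this
      · have hd : (0 : ℝ) < η n ^ 3 * 2 ^ n := by have := h0 n; positivity
        rw [div_lt_div_iff₀ hd (by positivity)] at hn
        linarith
    have e : ∀ n, (coins (List Bool)) (Bad M p (N n) (η n / 2) n) =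
        ENNReal.ofReal ((coins (List Bool)).real (Bad M p (N n) (η n / 2) n)) := by
      intro n
      rw [measureReal_def, ENNReal.ofReal_toReal (measure_ne_top _ _)]
    simp only [e]
    rw [← ENNReal.ofReal_tsum_of_nonneg (fun n => measureReal_nonneg) hreal]
    exact ENNReal.ofReal_ne_top
  filter_upwards [hae] with A hA
  filter_upwards [hA] with n hn s hs
  by_contra hcon
  push Not at hcon
  refine hn ?_
  simp only [Bad, Set.mem_iUnion, Finset.mem_range]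
  refine ⟨s, hs, ?_⟩
  have : (1 / 2 + 2 * (η n / 2)) * (2 : ℝ) ^ n = (1 / 2 + η n) * 2 ^ n := by ring
  rw [Set.mem_ofPred_eq, this]
  exact hcon

/-- The lower bound. -/
theorem lower_main {p T N : ℕ → ℕ} {η : ℕ → ℝ} (hp : ∀ n, 0 < p n) (h0 : ∀ n, 0 < η n)
    (h1 : ∀ n, η n ≤ 1)
    (hlim : Tendsto (fun n : ℕ => ((T n : ℝ) / p n + 1) * Real.log (((n : ℝ) + 2) * (N n + 1)) /
      (η n ^ 3 * 2 ^ n)) atTop (𝓝 0))
    (𝓜 : Set (ℕ → Mach)) (hc : 𝓜.Countable)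
    (hT : ∀ M ∈ 𝓜, ∃ C : ℕ, ∀ s, Time (M s) fun n => C * T n) :
    ∀ᵐ A ∂(coins (List Bool)), ∀ M ∈ 𝓜, ∀ᶠ n in atTop, ∀ s < N n,
      (right (M s) A (lang p A) n : ℝ) < (1 / 2 + η n) * 2 ^ n := by
  rw [ae_ball_iff hc]
  intro M hM
  obtain ⟨C, hC⟩ := hT M hM
  exact lower_single hp hC h0 h1 hlim

end Pool.Agent.H51.TA
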